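import Pool.Agent.H9.PCF.Defs

/-!
# Derivations, integrality and polynomial self-maps of affine space
-/

namespace Pool.Agent.H9.PCF

open MvPolynomial

section deriv

variable {R S B : Type*} [CommRing R] [CommRing S] [CommRing B]

theorem D_pow (q : S →+* B) (D : S → B)
    (hmul : ∀ a b, D (a * b) = q a * D b + q b * D a) (b : S) (n : ℕ) :
    D (b ^ n) = n * q b ^ (n - 1) * D b := by
  induction n with
  | zero =>
    have h := hmul 1 1
    simp only [mul_one, map_one, one_mul] at h
    have h1 : D 1 = 0 := by
      have := sub_eq_zero.2 h
      simpa using this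
    simp [h1]
  | succ n ih =>
    rw [pow_succ, hmul, ih]
    rcases n with _ | n
    · simp
    · simp only [Nat.add_sub_cancel, map_pow, Nat.cast_add, Nat.cast_one]
      ring

/-- A derivation (along a ring map `q`) that vanishes on a subring over which everything is
integral is zero, in characteristic zero. -/
theorem deriv_zero [IsDomain B] [CharZero B]
    (φ : R →+* S) (q : S →+* B) (hi : (q.comp φ).IsIntegral) (hqs : Function.Surjective q)
    (D : S → B) (hadd : ∀ a b, D (a + b) = D a + D b)
    (hmul : ∀ a b, D (a * b) = q a * D b + q b * D a)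
    (h0 : ∀ r, D (φ r) = 0) (hq : ∀ s, q s = 0 → D s = 0) (b : S) : D b = 0 := by
  classical
  have key : ∀ p : Polynomial R, D (p.eval₂ φ b) = q (p.derivative.eval₂ φ b) * D b := by
    intro p
    induction p using Polynomial.induction_on' with
    | add p r hp hr =>
      rw [Polynomial.eval₂_add, hadd, hp, hr, Polynomial.derivative_add, Polynomial.eval₂_add,
        map_add]
      ring
    | monomial n a =>
      rw [Polynomial.eval₂_monomial, hmul, h0, D_pow q D hmul, Polynomial.derivative_monomial,
        Polynomial.eval₂_monomial]
      simp only [map_mul, map_pow, map_natCast, mul_zero, add_zero]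
      ring
  by_contra hb
  have hex : ∃ n : ℕ, ∃ p : Polynomial R, p.map (q.comp φ) ≠ 0 ∧ q (p.eval₂ φ b) = 0 ∧
      (p.map (q.comp φ)).natDegree = n := by
    obtain ⟨p, hpm, hp⟩ := hi (q b)
    refine ⟨_, p, (hpm.map _).ne_zero, ?_, rfl⟩
    rw [← Polynomial.hom_eval₂] at hp
    exact hp
  obtain ⟨p, hp0, hpb, hpn⟩ := Nat.find_spec hex
  have hmin := fun m => @Nat.find_min _ _ hex m
  set n := Nat.find hex with hn
  have h1 := hq _ hpb
  rw [key p] at h1
  have h2 : q (p.derivative.eval₂ φ b) = 0 := (mul_eq_zero.1 h1).resolve_right hb
  have hd : (p.derivative.map (q.comp φ)) = (p.map (q.comp φ)).derivative :=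
    (Polynomial.derivative_map _ _).symm
  by_cases h3 : p.derivative.map (q.comp φ) = 0
  · rw [hd] at h3
    have h4 := Polynomial.natDegree_eq_zero_of_derivative_eq_zero h3
    rw [Polynomial.natDegree_eq_zero] at h4
    obtain ⟨c, hc⟩ := h4
    have h5 : q (p.eval₂ φ b) = Polynomial.eval (q b) (p.map (q.comp φ)) := by
      rw [Polynomial.eval_map, Polynomial.hom_eval₂]
    rw [h5, ← hc, Polynomial.eval_C] at hpb
    rw [hpb, map_zero] at hc
    exact hp0 hc.symm
  · have h4 : (p.derivative.map (q.comp φ)).natDegree < n := by
      rw [hd, ← hpn]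
      apply Polynomial.natDegree_derivative_lt
      intro h
      rw [hd] at h3
      apply h3
      rw [Polynomial.natDegree_eq_zero] at h
      obtain ⟨c, hc⟩ := h
      rw [← hc, Polynomial.derivative_C]
    exact hmin _ h4 ⟨_, h3, h2, rfl⟩

end deriv

section poly

variable {κ : Type*} [CommRing κ] {N : ℕ}

theorem pderiv_aeval (f : Fin N → MvPolynomial (Fin N) κ) (j : Fin N)
    (p : MvPolynomial (Fin N) κ) :
    pderiv j (aeval f p) = ∑ i, aeval f (pderiv i p) * pderiv j (f i) := by
  classical
  induction p using MvPolynomial.induction_on with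
  | C a => simp
  | add p q hp hq =>
    simp only [map_add, hp, hq, add_mul, Finset.sum_add_distrib]
  | mul_X p k hp =>
    rw [map_mul, aeval_X, pderiv_mul, hp]
    simp only [pderiv_mul, map_add, map_mul, aeval_X, add_mul, Finset.sum_add_distrib, pderiv_X]
    rw [Finset.sum_mul]
    congr 1
    · exact Finset.sum_congr rfl fun i _ => by ring
    · rw [Finset.sum_eq_single k]
      · simp
      · intro i _ hi
        rw [Pi.single_apply, if_neg (Ne.symm hi)]
        simp
      · simp

/-- The derivation `Σ v_j ∂_j`. -/
noncomputable def der (v : Fin N → MvPolynomial (Fin N) κ) (p : MvPolynomial (Fin N) κ) :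
    MvPolynomial (Fin N) κ := ∑ j, v j * pderiv j p

theorem der_add (v : Fin N → MvPolynomial (Fin N) κ) (p q : MvPolynomial (Fin N) κ) :
    der v (p + q) = der v p + der v q := by
  simp only [der, map_add, mul_add, Finset.sum_add_distrib]

theorem der_mul (v : Fin N → MvPolynomial (Fin N) κ) (p q : MvPolynomial (Fin N) κ) :
    der v (p * q) = p * der v q + q * der v p := by
  simp only [der, pderiv_mul, Finset.mul_sum]
  rw [← Finset.sum_add_distrib]
  exact Finset.sum_congr rfl fun i _ => by ring

theorem der_X (v : Fin N → MvPolynomial (Fin N) κ) (j : Fin N) : der v (X j) = v j := by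
  classical
  simp only [der, pderiv_X]
  rw [Finset.sum_eq_single j]
  · simp
  · intro i _ hi
    rw [Pi.single_apply, if_neg (Ne.symm hi), mul_zero]
  · simp

theorem der_aeval (v f : Fin N → MvPolynomial (Fin N) κ) (p : MvPolynomial (Fin N) κ) :
    der v (aeval f p) = ∑ i, aeval f (pderiv i p) * der v (f i) := by
  simp only [der, pderiv_aeval, Finset.mul_sum]
  rw [Finset.sum_comm]
  exact Finset.sum_congr rfl fun i _ => Finset.sum_congr rfl fun j _ => by ring

end poly

section field

variable {κ : Type*} [Field κ] [CharZero κ] {N : ℕ}

/-- If `κ[w]` is integral over `κ[f]`, the Jacobian determinant is nonzero. -/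
theorem jac_ne_zero (f : Fin N → MvPolynomial (Fin N) κ)
    (hi : (aeval f : MvPolynomial (Fin N) κ →ₐ[κ] MvPolynomial (Fin N) κ).toRingHom.IsIntegral) :
    jac f ≠ 0 := by
  intro h
  obtain ⟨v, hv, hM⟩ := Matrix.exists_mulVec_eq_zero_iff.2 h
  have hf : ∀ i, der v (f i) = 0 := by
    intro i
    have := congrFun hM i
    simp only [Matrix.mulVec, dotProduct, Matrix.of_apply, Pi.zero_apply] at this
    rw [der, ← this]
    exact Finset.sum_congr rfl fun j _ => mul_comm _ _
  have hz := deriv_zero (aeval f : MvPolynomial (Fin N) κ →ₐ[κ] MvPolynomial (Fin N) κ).toRingHom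
    (RingHom.id _) (by simpa using hi) Function.surjective_id (der v) (der_add v)
    (fun a b => der_mul v a b) (by
      intro r
      change der v (aeval f r) = 0
      rw [der_aeval]
      exact Finset.sum_eq_zero fun i _ => by rw [hf, mul_zero]) (by
      intro s hs
      simp only [RingHom.id_apply] at hs
      rw [hs]
      simp [der])
  apply hv
  funext j
  rw [← der_X v j, hz]
  rfl

/-- If the Jacobian determinant is nonzero, the components are algebraically independent. -/
theorem aeval_injective (f : Fin N → MvPolynomial (Fin N) κ) (hj : jac f ≠ 0) :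
    ∀ p : MvPolynomial (Fin N) κ, aeval f p = 0 → p = 0 := by
  intro p
  induction h : p.totalDegree using Nat.strong_induction_on generalizing p with
  | _ n ih =>
    intro hp
    have h1 : ∀ i, aeval f (pderiv i p) = 0 := by
      have h2 : Matrix.vecMul (fun i => aeval f (pderiv i p))
          (Matrix.of fun i j => pderiv j (f i)) = 0 := by
        funext j
        have := pderiv_aeval f j p
        rw [hp, map_zero] at this
        simp only [Matrix.vecMul, dotProduct, Matrix.of_apply, Pi.zero_apply]
        exact this.symm
      have h3 := Matrix.eq_zero_of_vecMul_eq_zero hj h2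
      exact fun i => congrFun h3 i
    rcases Nat.eq_zero_or_pos p.totalDegree with h0 | hpos
    · rw [totalDegree_eq_zero_iff_eq_C] at h0
      rw [h0] at hp ⊢
      rw [aeval_C] at hp
      have : coeff 0 p = 0 := by
        have := C_injective (Fin N) κ (hp.trans (map_zero C).symm)
        exact this
      rw [this, map_zero]
    · have h2 : ∀ i, pderiv i p = 0 := by
        intro i
        by_contra hne
        have hlt : (pderiv i p).totalDegree < n := by
          rw [← h]
          refine (Finset.sup_lt_iff hpos).2 ?_
          intro m hm
          rw [mem_support_iff, coeff_pderiv] at hm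
          have hm' : coeff (m + Finsupp.single i 1) p ≠ 0 := fun h => hm (by rw [h]; simp)
          have := le_totalDegree (mem_support_iff.2 hm')
          have e : ((m + Finsupp.single i 1).sum fun _ e => e) = (m.sum fun _ e => e) + 1 := by
            rw [Finsupp.sum_add_index' (by simp) (by intros; rfl)]
            simp
          omega
        exact hne (ih _ hlt _ rfl (h1 i))
      -- all derivatives vanish, so the polynomial is constant
      exfalso
      obtain ⟨m, hm, hmd⟩ : ∃ m ∈ p.support, (m.sum fun _ e => e) = p.totalDegree := by
        have hne : p.support.Nonempty := by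
          rw [Finset.nonempty_iff_ne_empty]
          intro he
          rw [MvPolynomial.support_eq_empty] at he
          rw [he] at hpos
          simp at hpos
        obtain ⟨m, hm, e⟩ := Finset.exists_mem_eq_sup p.support hne (fun m => m.sum fun _ e => e)
        exact ⟨m, hm, e.symm⟩
      have : ∃ i, m i ≠ 0 := by
        by_contra hall
        push_neg at hall
        have : m = 0 := Finsupp.ext hall
        rw [this] at hmd
        simp at hmd
        omega
      obtain ⟨i, hi⟩ := this
      have e := congrArg (coeff (m - Finsupp.single i 1)) (h2 i)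
      rw [coeff_pderiv, coeff_zero] at e
      have e2 : m - Finsupp.single i 1 + Finsupp.single i 1 = m := by
        apply tsub_add_cancel_of_le
        rw [Finsupp.single_le_iff]
        omega
      rw [e2] at e
      rw [mem_support_iff] at hm
      rcases mul_eq_zero.1 e with e | e
      · exact hm e
      · exact Nat.cast_add_one_ne_zero _ e

end field

end Pool.Agent.H9.PCF
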