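import Mathlib

/-!
# Postcritically finite regular polynomial endomorphisms: definitions
-/

namespace Pool.Agent.H9.PCF

open MvPolynomial

/-- The Jacobian determinant of a polynomial self-map of affine `N`-space. -/
noncomputable def jac {κ : Type*} [CommRing κ] {N : ℕ}
    (f : Fin N → MvPolynomial (Fin N) κ) : MvPolynomial (Fin N) κ :=
  Matrix.det (Matrix.of fun i j => pderiv j (f i))

/-- The self-map of `ℂ^N` with components `f`. -/
noncomputable def evalMap {N : ℕ} (f : Fin N → MvPolynomial (Fin N) ℂ) (x : Fin N → ℂ) :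
    Fin N → ℂ :=
  fun i => eval x (f i)

/-- `F` consists of `N` forms of degree `d` in `N` variables with no common zero other than `0`:
the forms of an endomorphism of `P^{N-1}` of degree `d`. -/
def IsForms {N : ℕ} (d : ℕ) (F : Fin N → MvPolynomial (Fin N) ℂ) : Prop :=
  (∀ i, (F i).IsHomogeneous d) ∧ ∀ x : Fin N → ℂ, (∀ i, eval x (F i) = 0) → x = 0

/-- `f` is a regular polynomial endomorphism of degree `d`: all components have degree at most
`d`, and their homogeneous parts of degree `d` have no common zero other than `0`. -/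
def IsRegularEndo {N : ℕ} (d : ℕ) (f : Fin N → MvPolynomial (Fin N) ℂ) : Prop :=
  (∀ i, (f i).totalDegree ≤ d) ∧ IsForms d (fun i => homogeneousComponent d (f i))

/-- The affine part of the postcritical set: all `f^n(x)`, where `n ≥ 1` and `x` is a critical
point of `f` in `ℂ^N`. -/
def PostCrit {N : ℕ} (f : Fin N → MvPolynomial (Fin N) ℂ) : Set (Fin N → ℂ) :=
  {y | ∃ n : ℕ, 1 ≤ n ∧ ∃ x : Fin N → ℂ, eval x (jac f) = 0 ∧ (evalMap f)^[n] x = y}

/-- `f` is postcritically finite. The hyperplane `H` at infinity consists of critical points and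
is mapped onto itself (for `d ≥ 2`), so the postcritical set in `P^N` is the union of `H` and
`PostCrit f`, and it is a closed algebraic subset of `P^N` exactly when `PostCrit f` is the zero
set of a set of polynomials in `ℂ^N`. -/
def IsPCF {N : ℕ} (f : Fin N → MvPolynomial (Fin N) ℂ) : Prop :=
  ∃ S : Set (MvPolynomial (Fin N) ℂ), PostCrit f = {y | ∀ P ∈ S, eval y P = 0}

/-- `f` and `g` are conjugate by the affine automorphism `x ↦ Ax + b` of `ℂ^N`, for some
invertible matrix `A` and some vector `b`. -/
def AffineConj {N : ℕ} (f g : Fin N → MvPolynomial (Fin N) ℂ) : Prop :=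
  ∃ (A : Matrix (Fin N) (Fin N) ℂ) (b : Fin N → ℂ), A.det ≠ 0 ∧
    ∀ x, evalMap f (A.mulVec x + b) = A.mulVec (evalMap g x) + b

/-- The restriction of `f` to the hyperplane `H = P^{N-1}` at infinity is conjugate under `PGL_N`
to the endomorphism `[F_1 : … : F_N]`. -/
def RestrictsTo {N : ℕ} (d : ℕ) (f F : Fin N → MvPolynomial (Fin N) ℂ) : Prop :=
  ∃ A : Matrix (Fin N) (Fin N) ℂ, A.det ≠ 0 ∧ ∃ c : ℂ, c ≠ 0 ∧
    ∀ x i, eval (A.mulVec x) (homogeneousComponent d (f i)) = c * A.mulVec (evalMap F x) i

/-- `f` is a postcritically finite regular polynomial endomorphism of degree `d` of `ℂ^N` whose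
class lies in the fiber of `π : R_d^N → M_d^{N-1}` over the class of `[F_1 : … : F_N]`. -/
def IsPCFInFiber {N : ℕ} (d : ℕ) (F f : Fin N → MvPolynomial (Fin N) ℂ) : Prop :=
  IsRegularEndo d f ∧ IsPCF f ∧ RestrictsTo d f F

end Pool.Agent.H9.PCF
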