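import Pool.Agent.H9.PCF.Val3

/-!
# Normalised maps with a small postcritical set are defined over the field of their top part
-/

namespace Pool.Agent.H9.PCF

open MvPolynomial

variable {K : Type*} [Field K] {N : ℕ}

theorem mem_of_integral (k : Subfield K) [IsAlgClosed k] (x : K) (hx : IsIntegral k x) : x ∈ k := by
  have h : (minpoly k x).degree = 1 :=
    IsAlgClosed.degree_eq_one_of_irreducible k (minpoly.irreducible hx)
  obtain ⟨y, hy⟩ := minpoly.mem_range_of_degree_eq_one k x h
  rw [← hy]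
  exact y.2

theorem exists_val (k : Subfield K) [IsAlgClosed k] (x : K) (hx : x ∉ k) :
    ∃ O : ValuationSubring K, (∀ y ∈ k, y ∈ O) ∧ x ∉ O := by
  haveI : IsIntegrallyClosedIn k.toSubring K := by
    rw [Subring.isIntegrallyClosedIn_iff]
    intro y hy
    exact mem_of_integral k y hy
  obtain ⟨V, hV, hxV⟩ := Subring.exists_le_valuationSubring_of_isIntegrallyClosedIn
    (R := k.toSubring) (x := x) hx
  exact ⟨V, fun y hy => hV hy, hxV⟩

/-- The key rigidity statement. -/
theorem coeff_mem [IsAlgClosed K] [CharZero K] (k : Subfield K) [IsAlgClosed k] {d M : ℕ}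
    (hd : 2 ≤ d) (F0 : Fin N → MvPolynomial (Fin N) k) (hF0 : ∀ i, (F0 i).IsHomogeneous d)
    (hM : ∀ i, (X i : MvPolynomial (Fin N) k) ^ M ∈ Ideal.span (Set.range F0))
    (f : Fin N → MvPolynomial (Fin N) K) (hf : ∀ j, (f j - map k.subtype (F0 j)).totalDegree < d)
    (h0 : ∀ j, eval 0 (f j) = 0) (hP : SmallPC f) (j : Fin N) (m : Fin N →₀ ℕ) :
    coeff m (f j) ∈ k := by
  by_contra hbad
  obtain ⟨O, hkO, hxO⟩ := exists_val k _ hbad
  set φ : k →+* O := RingHom.codRestrict k.subtype O (fun y => hkO y y.2) with hφ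
  have hφ2 : ∀ p : MvPolynomial (Fin N) k, map O.subtype (map φ p) = map k.subtype p := by
    intro p
    rw [map_map]
    rfl
  haveI : CharZero (IsLocalRing.ResidueField O) :=
    charZero_of_injective_ringHom ((IsLocalRing.residue O).comp φ).injective
  have hMO : ∀ i, (X i : MvPolynomial (Fin N) O) ^ M
      ∈ Ideal.span (Set.range fun j => map φ (F0 j)) := by
    intro i
    have h := hM i
    rw [Ideal.mem_span_range_iff_exists_fun] at h
    obtain ⟨c, hc⟩ := h
    rw [Ideal.mem_span_range_iff_exists_fun]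
    refine ⟨fun j => map φ (c j), ?_⟩
    have := congrArg (map φ) hc
    simp only [map_sum, map_mul, map_pow, map_X] at this
    exact this
  exact hxO (val_main O hd (fun j => map φ (F0 j)) (fun i => (hF0 i).map _) hMO f
    (fun j => by rw [hφ2]; exact hf j) h0 hP j m)

/-- The Nullstellensatz for forms with no common zero. -/
theorem exists_M (k : Type*) [Field k] [IsAlgClosed k] (F0 : Fin N → MvPolynomial (Fin N) k)
    (h : ∀ x : Fin N → k, (∀ i, eval x (F0 i) = 0) → x = 0) :
    ∃ M, ∀ i, (X i : MvPolynomial (Fin N) k) ^ M ∈ Ideal.span (Set.range F0) := by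
  have h1 : ∀ i, ∃ M : ℕ, (X i : MvPolynomial (Fin N) k) ^ M ∈ Ideal.span (Set.range F0) := by
    intro i
    have hmem : (X i : MvPolynomial (Fin N) k)
        ∈ vanishingIdeal k (zeroLocus k (Ideal.span (Set.range F0))) := by
      rw [mem_vanishingIdeal_iff]
      intro x hx
      rw [mem_zeroLocus_iff] at hx
      have hx0 : x = 0 := h x fun i => hx _ (Ideal.subset_span ⟨i, rfl⟩)
      rw [hx0, aeval_X]
      rfl
    rw [vanishingIdeal_zeroLocus_eq_radical, Ideal.mem_radical_iff] at hmem
    exact hmem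
  choose M hM using h1
  refine ⟨∑ i, M i, fun i => ?_⟩
  have : ∑ j, M j = M i + ∑ j ∈ Finset.univ.erase i, M j :=
    (Finset.add_sum_erase _ _ (Finset.mem_univ i)).symm
  rw [this, pow_add]
  exact Ideal.mul_mem_right _ _ (hM i)

/-- Lying over. -/
theorem lying_over {R S : Type*} [CommRing R] [CommRing S] (φ : R →+* S) (hφ : φ.IsIntegral)
    (hinj : Function.Injective φ) (P : Ideal R) [P.IsMaximal] :
    ∃ Q : Ideal S, Q.IsMaximal ∧ Q.comap φ = P := by
  letI := φ.toAlgebra
  haveI : Algebra.IsIntegral R S := ⟨hφ⟩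
  exact Ideal.exists_ideal_over_maximal_of_isIntegral P (by
    have : RingHom.ker (algebraMap R S) = ⊥ := (RingHom.injective_iff_ker_eq_bot _).1 hinj
    rw [this]
    exact bot_le)

/-- A map with a nondegenerate top part is surjective on points. -/
theorem exists_zero [IsAlgClosed K] [CharZero K] {d M : ℕ} (hd : 1 ≤ d)
    {F f : Fin N → MvPolynomial (Fin N) K}
    (hF : IsTop d F f) (hM : HasM F M) : ∃ b : Fin N → K, ∀ j, eval b (f j) = 0 := by
  have hint := isIntegral hd hF hM
  have hinj := aeval_injective f (jac_ne_zero f hint)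
  obtain ⟨Q, hQ, hQ2⟩ := lying_over _ hint
    ((injective_iff_map_eq_zero _).2 hinj) (vanishingIdeal K {(0 : Fin N → K)})
  obtain ⟨b, hb⟩ := isMaximal_iff_eq_vanishingIdeal_singleton.1 hQ
  refine ⟨b, fun j => ?_⟩
  have h1 : (X j : MvPolynomial (Fin N) K) ∈ vanishingIdeal K {(0 : Fin N → K)} := by
    rw [mem_vanishingIdeal_singleton_iff, aeval_X]
    rfl
  rw [← hQ2, Ideal.mem_comap, hb, mem_vanishingIdeal_singleton_iff] at h1
  change aeval b (aeval f (X j)) = 0 at h1
  rw [aeval_X] at h1
  exact h1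

end Pool.Agent.H9.PCF
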