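import Pool.Agent.H9.PCF.Integral

/-!
# Lifting the Euler field along a finite map whose critical values lie on cones
-/

namespace Pool.Agent.H9.PCF

open MvPolynomial

variable {κ : Type*} [Field κ] {N : ℕ}

/-! ## Top components of compositions -/

theorem hc_pow_top (L : MvPolynomial (Fin N) κ) (hL : L.totalDegree ≤ 1) (n : ℕ) :
    (L ^ n).totalDegree ≤ n ∧ homogeneousComponent n (L ^ n) = homogeneousComponent 1 L ^ n := by
  induction n with
  | zero =>
    refine ⟨by simp, ?_⟩
    simp
  | succ n ih =>
    refine ⟨?_, ?_⟩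
    · rw [pow_succ]
      have := totalDegree_mul (L ^ n) L
      omega
    · rw [pow_succ, hc_mul_top _ _ ih.1 hL, ih.2, pow_succ]

theorem hc_prod_top (L : Fin N → MvPolynomial (Fin N) κ) (hL : ∀ i, (L i).totalDegree ≤ 1)
    (m : Fin N →₀ ℕ) (s : Finset (Fin N)) :
    (∏ i ∈ s, L i ^ m i).totalDegree ≤ ∑ i ∈ s, m i ∧
      homogeneousComponent (∑ i ∈ s, m i) (∏ i ∈ s, L i ^ m i)
        = ∏ i ∈ s, homogeneousComponent 1 (L i) ^ m i := by
  classical
  induction s using Finset.induction_on with
  | empty => simp
  | insert a s ha ih =>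
    rw [Finset.prod_insert ha, Finset.sum_insert ha, Finset.prod_insert ha]
    have h := hc_pow_top (L a) (hL a) (m a)
    refine ⟨?_, ?_⟩
    · have := totalDegree_mul (L a ^ m a) (∏ i ∈ s, L i ^ m i)
      omega
    · rw [hc_mul_top _ _ h.1 ih.1, h.2, ih.2]

theorem aeval_top {d : ℕ} (L : Fin N → MvPolynomial (Fin N) κ)
    (hL : ∀ i, (L i).totalDegree ≤ 1) (p : MvPolynomial (Fin N) κ) (hp : p.totalDegree ≤ d) :
    (aeval L p).totalDegree ≤ d ∧ homogeneousComponent d (aeval L p)
      = aeval (fun i => homogeneousComponent 1 (L i)) (homogeneousComponent d p) := by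
  classical
  have key : ∀ m : Fin N →₀ ℕ, ∀ c : κ, m.degree ≤ d →
      (aeval L (monomial m c)).totalDegree ≤ d ∧
      homogeneousComponent d (aeval L (monomial m c))
        = aeval (fun i => homogeneousComponent 1 (L i))
          (homogeneousComponent d (monomial m c)) := by
    intro m c hm
    have e : ∀ L' : Fin N → MvPolynomial (Fin N) κ,
        aeval L' (monomial m c) = C c * ∏ i, L' i ^ m i := by
      intro L'
      rw [aeval_monomial, Finsupp.prod_fintype _ _ (by simp)]
      rfl
    have h := hc_prod_top L hL m Finset.univ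
    have hdeg : ∑ i, m i = m.degree := (Finsupp.degree_eq_sum m).symm
    rw [hdeg] at h
    have h1 : (C c * ∏ i, L i ^ m i).totalDegree ≤ m.degree := by
      have := totalDegree_mul (C c) (∏ i, L i ^ m i)
      rw [totalDegree_C] at this
      omega
    refine ⟨by rw [e]; omega, ?_⟩
    rcases hm.eq_or_lt with h2 | h2
    · rw [homogeneousComponent_eq_self (isHomogeneous_monomial c h2), e, e,
        homogeneousComponent_C_mul, ← h2, h.2]
    · rw [e, homogeneousComponent_eq_zero d (C c * ∏ i, L i ^ m i) (by omega),
        homogeneousComponent_of_mem ((mem_homogeneousSubmodule _ _).2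
          (isHomogeneous_monomial c rfl)), if_neg (by omega), map_zero]
  have hm : ∀ m ∈ p.support, m.degree ≤ d := by
    intro m hm
    have h1 := le_totalDegree hm
    have h3 : (m.sum fun _ e => e) = m.degree := by
      rw [Finsupp.degree_apply, Finsupp.sum]
    omega
  refine ⟨?_, ?_⟩
  · rw [p.as_sum, map_sum]
    refine (totalDegree_finsetSum _ _).trans (Finset.sup_le fun m h => ?_)
    exact (key m _ (hm m h)).1
  · conv_lhs => rw [p.as_sum]
    conv_rhs => rw [p.as_sum]
    rw [map_sum, map_sum, map_sum, map_sum]
    exact Finset.sum_congr rfl fun m h => (key m _ (hm m h)).2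

/-! ## Euler's identity -/

theorem coeff_euler (p : MvPolynomial (Fin N) κ) (m : Fin N →₀ ℕ) :
    coeff m (∑ i, X i * pderiv i p) = (m.degree : κ) * coeff m p := by
  classical
  rw [coeff_sum, Finsupp.degree_eq_sum, Nat.cast_sum, Finset.sum_mul]
  refine Finset.sum_congr rfl fun i _ => ?_
  rw [coeff_X_mul']
  split_ifs with h
  · rw [coeff_pderiv]
    have e2 : m - Finsupp.single i 1 + Finsupp.single i 1 = m := by
      apply tsub_add_cancel_of_le
      rw [Finsupp.single_le_iff]
      rw [Finsupp.mem_support_iff] at h
      omega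
    rw [e2]
    have e3 : (((m - Finsupp.single i 1 : Fin N →₀ ℕ) i : ℕ) : κ) + 1 = m i := by
      rw [Finsupp.mem_support_iff] at h
      rw [Finsupp.tsub_apply, Finsupp.single_eq_same]
      have : m i = (m i - 1) + 1 := by omega
      conv_rhs => rw [this]
      push_cast
      rfl
    rw [e3, mul_comm]
  · rw [Finsupp.notMem_support_iff] at h
    rw [h]
    simp

theorem hom_of_euler [CharZero κ] {d : ℕ} (p : MvPolynomial (Fin N) κ)
    (h : ∑ i, X i * pderiv i p = C (d : κ) * p) : p.IsHomogeneous d := by
  intro m hm
  have h1 := congrArg (coeff m) h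
  rw [coeff_euler, coeff_C_mul] at h1
  have h2 := mul_right_cancel₀ hm h1
  have h3 : m.degree = d := by exact_mod_cast h2
  rw [← h3, Finsupp.degree_eq_weight_one]
  rfl

theorem euler_of_hom {d : ℕ} (p : MvPolynomial (Fin N) κ) (h : p.IsHomogeneous d) :
    ∑ i, X i * pderiv i p = C (d : κ) * p := by
  ext m
  rw [coeff_euler, coeff_C_mul]
  by_cases hm : coeff m p = 0
  · rw [hm, mul_zero, mul_zero]
  · have h1 : m.degree = d := by
      rw [Finsupp.degree_eq_weight_one]
      exact h hm
    rw [h1]

/-! ## The lifted Euler field is polynomial -/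

theorem lift_step [CharZero κ] {F f : Fin N → MvPolynomial (Fin N) κ}
    (hint : (aeval f : MvPolynomial (Fin N) κ →ₐ[κ] MvPolynomial (Fin N) κ).toRingHom.IsIntegral)
    (hinj : ∀ p : MvPolynomial (Fin N) κ, aeval f p = 0 → p = 0)
    (H : MvPolynomial (Fin N) κ) {h : ℕ} (hH : H.IsHomogeneous h) (hH0 : H ≠ 0) (k : ℕ)
    (n : ℕ) : ∀ (J : MvPolynomial (Fin N) κ) (A : Fin N → MvPolynomial (Fin N) κ),
      J ≠ 0 → J ∣ (aeval f H) ^ k → (∀ j, der A (f j) = J * f j) → J.totalDegree = n →
      ∃ V : Fin N → MvPolynomial (Fin N) κ, ∀ j, der V (f j) = f j := by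
  classical
  induction n using Nat.strong_induction_on with
  | _ n ih =>
    intro J A hJ0 hJ hA hn
    by_cases hu : IsUnit J
    · obtain ⟨u, rfl⟩ := hu
      refine ⟨fun i => (↑u⁻¹ : MvPolynomial (Fin N) κ) * A i, fun j => ?_⟩
      have : der (fun i => (↑u⁻¹ : MvPolynomial (Fin N) κ) * A i) (f j)
          = (↑u⁻¹ : MvPolynomial (Fin N) κ) * der A (f j) := by
        simp only [der, Finset.mul_sum, mul_assoc]
      rw [this, hA, ← mul_assoc, Units.inv_mul, one_mul]
    · obtain ⟨π, hπ, J', hJ'⟩ := WfDvdMonoid.exists_irreducible_factor hu hJ0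
      have hπp : Prime π := hπ.prime
      have hπJ : π ∣ J := ⟨J', hJ'⟩
      set T := aeval f H with hT
      have hT0 : T ≠ 0 := fun h0 => hH0 (hinj _ h0)
      have hπT : π ∣ T := hπp.dvd_of_dvd_pow (hπJ.trans hJ)
      obtain ⟨e, u, hu', hTe⟩ : ∃ (e : ℕ) (u : MvPolynomial (Fin N) κ), ¬ π ∣ u ∧ T = π ^ e * u := by
        obtain ⟨u, h1, h2⟩ :=
          (FiniteMultiplicity.of_prime_left hπp hT0).exists_eq_pow_mul_and_not_dvd
        exact ⟨_, u, h2, h1⟩
      have he : e ≠ 0 := by
        rintro rfl
        rw [pow_zero, one_mul] at hTe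
        exact hu' (hTe ▸ hπT)
      obtain ⟨e', rfl⟩ := Nat.exists_eq_succ_of_ne_zero he
      rw [Nat.succ_eq_add_one] at hTe
      -- the derivation `der A` preserves the ideal `(π)`
      have hD : der A T = C (h : κ) * (J * T) := by
        rw [hT, der_aeval]
        simp only [hA]
        have e1 : ∑ i, aeval f (pderiv i H) * (J * f i)
            = J * aeval f (∑ i, X i * pderiv i H) := by
          rw [map_sum, Finset.mul_sum]
          refine Finset.sum_congr rfl fun i _ => ?_
          rw [map_mul, aeval_X]
          ring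
        rw [e1, euler_of_hom H hH, map_mul, aeval_C]
        simp only [algebraMap_eq]
        ring
      have hD2 : der A (π ^ (e' + 1)) = ((e' + 1 : ℕ) : MvPolynomial (Fin N) κ) * π ^ e' * der A π := by
        have := D_pow (RingHom.id _) (der A) (fun a b => der_mul A a b) π (e' + 1)
        simpa using this
      have hDπ : π ∣ der A π := by
        have h1 : π ^ e' * (((e' + 1 : ℕ) : MvPolynomial (Fin N) κ) * u * der A π)
            = π ^ e' * (π * (C (h : κ) * J * u - der A u)) := by
          have h2 := hD
          rw [hTe, der_mul, hD2] at h2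
          linear_combination h2
        have h3 := mul_left_cancel₀ (pow_ne_zero e' hπ.ne_zero) h1
        have h4 : π ∣ ((e' + 1 : ℕ) : MvPolynomial (Fin N) κ) * u * der A π := ⟨_, h3⟩
        rcases hπp.dvd_or_dvd h4 with h5 | h5
        · rcases hπp.dvd_or_dvd h5 with h6 | h6
          · exfalso
            apply hπ.not_isUnit
            refine isUnit_of_dvd_unit h6 ?_
            have : ((e' + 1 : ℕ) : MvPolynomial (Fin N) κ) = C ((e' + 1 : ℕ) : κ) := by simp
            rw [this]
            exact (IsUnit.mk0 _ (by exact_mod_cast Nat.succ_ne_zero e')).map C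
          · exact absurd h6 hu'
        · exact h5
      -- so it induces a derivation of the residue ring, which is zero
      have hprime : (Ideal.span {π}).IsPrime := (Ideal.span_singleton_prime hπ.ne_zero).2 hπp
      set q := Ideal.Quotient.mk (Ideal.span {π}) with hq
      have hqz : ∀ s, q s = 0 ↔ π ∣ s := by
        intro s
        rw [hq, Ideal.Quotient.eq_zero_iff_mem, Ideal.mem_span_singleton]
      haveI : CharZero (MvPolynomial (Fin N) κ ⧸ Ideal.span {π}) :=
        charZero_of_injective_algebraMap
          (algebraMap κ (MvPolynomial (Fin N) κ ⧸ Ideal.span {π})).injective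
      have hz := deriv_zero (aeval f : MvPolynomial (Fin N) κ →ₐ[κ] MvPolynomial (Fin N) κ).toRingHom
        q (RingHom.IsIntegral.trans _ _ hint
          (RingHom.isIntegral_of_surjective _ Ideal.Quotient.mk_surjective))
        Ideal.Quotient.mk_surjective (fun s => q (der A s))
        (fun a b => by rw [der_add, map_add])
        (fun a b => by rw [der_mul, map_add, map_mul, map_mul])
        (by
          intro r
          change q (der A (aeval f r)) = 0
          rw [hqz, der_aeval]
          refine Finset.dvd_sum fun i _ => ?_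
          rw [hA]
          exact Dvd.dvd.mul_left (hπJ.mul_right _) _)
        (by
          intro s hs
          rw [hqz] at hs ⊢
          obtain ⟨t, rfl⟩ := hs
          rw [der_mul]
          exact dvd_add (dvd_mul_right _ _) (hDπ.mul_left _))
      have hAi : ∀ i, π ∣ A i := by
        intro i
        have := hz (X i)
        rw [hqz, der_X] at this
        exact this
      choose A' hA' using hAi
      have hJ'0 : J' ≠ 0 := by
        rintro rfl
        rw [mul_zero] at hJ'
        exact hJ0 hJ'
      refine ih J'.totalDegree ?_ J' A' hJ'0 ((Dvd.intro_left π hJ'.symm).trans hJ) ?_ rfl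
      · rw [← hn, hJ', totalDegree_mul_of_isDomain hπ.ne_zero hJ'0]
        have : π.totalDegree ≠ 0 := by
          intro h0
          rw [totalDegree_eq_zero_iff_eq_C] at h0
          apply hπ.not_isUnit
          rw [h0]
          refine (IsUnit.mk0 _ ?_).map C
          intro h1
          rw [h1, map_zero] at h0
          exact hπ.ne_zero h0
        omega
      · intro j
        have h1 := hA j
        have h2 : der A (f j) = π * der A' (f j) := by
          simp only [der, Finset.mul_sum]
          refine Finset.sum_congr rfl fun i _ => ?_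
          rw [hA' i]
          ring
        rw [h2, hJ', mul_assoc] at h1
        exact mul_left_cancel₀ hπ.ne_zero h1

end Pool.Agent.H9.PCF
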