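import Pool.Agent.H9.PCF.Descend

/-!
# Postcritically finite maps: the postcritical set is small, and normalisation by conjugation
-/

namespace Pool.Agent.H9.PCF

open MvPolynomial

variable {N : ℕ}

/-! ## The postcritical set of a postcritically finite map is small -/

/-- A nonzero polynomial does not vanish on a nonempty open set. -/
theorem dense_ne (P : MvPolynomial (Fin N) ℂ) (hP : P ≠ 0) :
    Dense {x : Fin N → ℂ | eval x P ≠ 0} := by
  rw [dense_iff_inter_open]
  rintro U hU ⟨x, hx⟩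
  by_contra hcon
  apply hP
  obtain ⟨ε, hε, hball⟩ := Metric.isOpen_iff.1 hU x hx
  rw [ball_pi x hε] at hball
  refine funext_set (fun i => Metric.ball (x i) ε)
    (fun i => infinite_of_mem_nhds (x i) (Metric.ball_mem_nhds _ hε)) ?_
  intro y hy
  by_contra hne
  apply hcon
  refine ⟨y, hball hy, ?_⟩
  simpa using hne

theorem exists_avoid (P : ℕ → MvPolynomial (Fin N) ℂ) (hP : ∀ n, P n ≠ 0) :
    ∃ x : Fin N → ℂ, ∀ n, eval x (P n) ≠ 0 := by
  have h := dense_iInter_of_isOpen_nat (f := fun n => {x : Fin N → ℂ | eval x (P n) ≠ 0})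
    (fun n => isOpen_ne_fun (P n).continuous_eval continuous_const) (fun n => dense_ne _ (hP n))
  obtain ⟨x, hx⟩ := h.nonempty
  rw [Set.mem_iInter] at hx
  exact ⟨x, hx⟩

theorem exists_mult {R S : Type*} [CommRing R] [CommRing S] [IsDomain S] (φ : R →+* S)
    (hφ : φ.IsIntegral) (x : S) (hx : x ≠ 0) : ∃ r : R, r ≠ 0 ∧ x ∣ φ r := by
  letI := φ.toAlgebra
  haveI : Nontrivial R := φ.domain_nontrivial
  have h : IsIntegral R x := hφ x
  exact h.isAlgebraic.exists_nonzero_dvd (mem_nonZeroDivisors_of_ne_zero hx)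

theorem iter_integral {κ : Type*} [Field κ] (f : Fin N → MvPolynomial (Fin N) κ)
    (hf : (aeval f : MvPolynomial (Fin N) κ →ₐ[κ] MvPolynomial (Fin N) κ).toRingHom.IsIntegral)
    (n : ℕ) :
    (aeval (iter f n) : MvPolynomial (Fin N) κ →ₐ[κ] MvPolynomial (Fin N) κ).toRingHom.IsIntegral
    := by
  induction n with
  | zero =>
    intro p
    refine ⟨Polynomial.X - Polynomial.C p, Polynomial.monic_X_sub_C p, ?_⟩
    rw [Polynomial.eval₂_sub, Polynomial.eval₂_X, Polynomial.eval₂_C]
    have : (aeval (iter f 0) : MvPolynomial (Fin N) κ →ₐ[κ] _).toRingHom p = p :=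
      aeval_X_left_apply p
    rw [this, sub_self]
  | succ n ih =>
    have h := RingHom.IsIntegral.trans _ _ hf ih
    have e : ((aeval (iter f n) : MvPolynomial (Fin N) κ →ₐ[κ] _).toRingHom.comp
        (aeval f : MvPolynomial (Fin N) κ →ₐ[κ] _).toRingHom)
        = (aeval (iter f (n + 1)) : MvPolynomial (Fin N) κ →ₐ[κ] _).toRingHom := by
      refine RingHom.ext fun p => ?_
      exact aeval_aeval' f (iter f n) p
    rw [e] at h
    exact h

theorem isTop_of_regular {d : ℕ} (hd : 1 ≤ d) {f : Fin N → MvPolynomial (Fin N) ℂ}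
    (hf : IsRegularEndo d f) : IsTop d (fun i => homogeneousComponent d (f i)) f :=
  ⟨hf.2.1, fun i => totalDegree_sub_hc _ (hf.1 i) hd⟩

theorem smallPC_of_isPCF {d : ℕ} (hd : 1 ≤ d) {f : Fin N → MvPolynomial (Fin N) ℂ}
    (hf : IsRegularEndo d f) (h : IsPCF f) : SmallPC f := by
  obtain ⟨S, hS⟩ := h
  by_cases hex : ∃ P ∈ S, P ≠ 0
  · obtain ⟨P, hPS, hP⟩ := hex
    refine ⟨P, hP, fun n hn x hx => ?_⟩
    have : (evalMap f)^[n] x ∈ PostCrit f := ⟨n, hn, x, hx, rfl⟩
    rw [hS] at this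
    exact this P hPS
  · exfalso
    push Not at hex
    obtain ⟨M, hM⟩ := exists_M ℂ _ hf.2.2
    have hint := isIntegral hd (isTop_of_regular hd hf) hM
    have hjac := jac_ne_zero f hint
    have h1 : ∀ n : ℕ, ∃ P : MvPolynomial (Fin N) ℂ, P ≠ 0 ∧ jac f ∣ aeval (iter f n) P :=
      fun n => exists_mult _ (iter_integral f hint n) _ hjac
    choose P hP0 hPd using h1
    obtain ⟨y, hy⟩ := exists_avoid P hP0
    have hy2 : y ∈ PostCrit f := by
      rw [hS]
      intro Q hQ
      rw [hex Q hQ, map_zero]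
    obtain ⟨n, -, x, hx, hxy⟩ := hy2
    apply hy n
    obtain ⟨c, hc⟩ := hPd n
    have e1 := congrArg (eval x) hc
    rw [map_mul, hx, zero_mul, eval_comp, eval_iter] at e1
    rw [← hxy]
    exact e1

/-! ## Normalisation by an affine change of coordinates -/

/-- The components of `x ↦ Ax + b`. -/
noncomputable def lin (A : Matrix (Fin N) (Fin N) ℂ) (b : Fin N → ℂ) :
    Fin N → MvPolynomial (Fin N) ℂ := fun i => ∑ k, C (A i k) * X k + C (b i)

theorem eval_lin (A : Matrix (Fin N) (Fin N) ℂ) (b x : Fin N → ℂ) (i : Fin N) :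
    eval x (lin A b i) = (A.mulVec x + b) i := by
  simp [lin, Matrix.mulVec, dotProduct]

theorem eval_lin' (A : Matrix (Fin N) (Fin N) ℂ) (b x : Fin N → ℂ) :
    (fun i => eval x (lin A b i)) = A.mulVec x + b := by
  funext i
  rw [eval_lin]

theorem lin_form (A : Matrix (Fin N) (Fin N) ℂ) (i : Fin N) :
    (∑ k, C (A i k) * X k : MvPolynomial (Fin N) ℂ).IsHomogeneous 1 :=
  IsHomogeneous.sum _ _ _ fun k _ => isHomogeneous_C_mul_X _ _

theorem totalDegree_lin (A : Matrix (Fin N) (Fin N) ℂ) (b : Fin N → ℂ) (i : Fin N) :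
    (lin A b i).totalDegree ≤ 1 := by
  refine (totalDegree_add _ _).trans (max_le (lin_form A i).totalDegree_le ?_)
  rw [totalDegree_C]
  omega

theorem hc_lin (A : Matrix (Fin N) (Fin N) ℂ) (b : Fin N → ℂ) (i : Fin N) :
    homogeneousComponent 1 (lin A b i) = lin A 0 i := by
  rw [lin, map_add, homogeneousComponent_eq_self (lin_form A i),
    homogeneousComponent_eq_zero 1 (C (b i)) (by rw [totalDegree_C]; omega), lin]
  simp

theorem pderiv_lin (A : Matrix (Fin N) (Fin N) ℂ) (b : Fin N → ℂ) (i j : Fin N) :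
    pderiv j (lin A b i) = C (A i j) := by
  classical
  rw [lin, map_add, pderiv_C, add_zero, map_sum, Finset.sum_eq_single j]
  · rw [pderiv_C_mul, pderiv_X_self, mul_one]
  · intro k _ hk
    rw [pderiv_C_mul, pderiv_X, Pi.single_apply, if_neg hk, mul_zero]
  · simp

/-- The conjugate `A⁻¹ (f (A x + b) - b)`. -/
noncomputable def conj (A : Matrix (Fin N) (Fin N) ℂ) (b : Fin N → ℂ)
    (f : Fin N → MvPolynomial (Fin N) ℂ) : Fin N → MvPolynomial (Fin N) ℂ :=
  fun i => ∑ j, C (A⁻¹ i j) * (aeval (lin A b) (f j) - C (b j))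

theorem eval_conj (A : Matrix (Fin N) (Fin N) ℂ) (b : Fin N → ℂ)
    (f : Fin N → MvPolynomial (Fin N) ℂ) (x : Fin N → ℂ) :
    evalMap (conj A b f) x = A⁻¹.mulVec (evalMap f (A.mulVec x + b) - b) := by
  funext i
  have e : eval x (conj A b f i) = ∑ j, A⁻¹ i j * (eval (A.mulVec x + b) (f j) - b j) := by
    rw [conj, map_sum]
    refine Finset.sum_congr rfl fun j _ => ?_
    rw [map_mul, eval_C, map_sub, eval_C, eval_comp, eval_lin']
  simp only [evalMap, Matrix.mulVec, dotProduct, Pi.sub_apply] at e ⊢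
  exact e

theorem conj_semi (A : Matrix (Fin N) (Fin N) ℂ) (hA : A.det ≠ 0) (b : Fin N → ℂ)
    (f : Fin N → MvPolynomial (Fin N) ℂ) (x : Fin N → ℂ) :
    evalMap f (A.mulVec x + b) = A.mulVec (evalMap (conj A b f) x) + b := by
  rw [eval_conj, Matrix.mulVec_mulVec, Matrix.mul_nonsing_inv _ (isUnit_iff_ne_zero.2 hA),
    Matrix.one_mulVec, sub_add_cancel]

theorem conj_poly (A : Matrix (Fin N) (Fin N) ℂ) (hA : A.det ≠ 0) (b : Fin N → ℂ)
    (f : Fin N → MvPolynomial (Fin N) ℂ) (j : Fin N) :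
    aeval (lin A b) (f j) = aeval (conj A b f) (lin A b j) := by
  apply MvPolynomial.funext
  intro x
  rw [eval_comp, eval_comp, eval_lin', eval_lin]
  exact congrFun (conj_semi A hA b f x) j

theorem jac_conj (A : Matrix (Fin N) (Fin N) ℂ) (hA : A.det ≠ 0) (b : Fin N → ℂ)
    (f : Fin N → MvPolynomial (Fin N) ℂ) :
    jac (conj A b f) = aeval (lin A b) (jac f) := by
  have h1 : (aeval (lin A b)).mapMatrix (Matrix.of fun i j => pderiv j (f i))
      * A.map C = A.map C * Matrix.of (fun i j => pderiv j (conj A b f i)) := by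
    ext1 i j
    have e := congrArg (pderiv j) (conj_poly A hA b f i)
    rw [pderiv_aeval, pderiv_aeval] at e
    simp only [pderiv_lin, aeval_C, algebraMap_eq] at e
    simp only [Matrix.mul_apply, AlgHom.mapMatrix_apply, Matrix.map_apply, Matrix.of_apply]
    exact e
  have h2 := congrArg Matrix.det h1
  rw [Matrix.det_mul, Matrix.det_mul, ← AlgHom.map_det, mul_comm] at h2
  have h3 : (A.map C : Matrix (Fin N) (Fin N) (MvPolynomial (Fin N) ℂ)).det ≠ 0 := by
    have e : (A.map C : Matrix (Fin N) (Fin N) (MvPolynomial (Fin N) ℂ)).det = C A.det := by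
      rw [RingHom.map_det]
      rfl
    rw [e]
    intro h
    rw [← map_zero C] at h
    exact hA (C_injective _ _ h)
  exact (mul_left_cancel₀ h3 h2).symm

theorem smallPC_conj (A : Matrix (Fin N) (Fin N) ℂ) (hA : A.det ≠ 0) (b : Fin N → ℂ)
    (f : Fin N → MvPolynomial (Fin N) ℂ) (h : SmallPC f) : SmallPC (conj A b f) := by
  obtain ⟨P, hP, hPv⟩ := h
  have e0 := eval_lin' A b
  refine ⟨aeval (lin A b) P, ?_, ?_⟩
  · intro h0
    apply hP
    apply MvPolynomial.funext
    intro y
    have h1 := congrArg (eval (A⁻¹.mulVec (y - b))) h0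
    rw [eval_comp, e0, Matrix.mulVec_mulVec, Matrix.mul_nonsing_inv _ (isUnit_iff_ne_zero.2 hA),
      Matrix.one_mulVec, sub_add_cancel] at h1
    rw [h1, map_zero, map_zero]
  · intro n hn x hx
    rw [jac_conj A hA, eval_comp, e0] at hx
    have h1 := hPv n hn _ hx
    rw [eval_comp, e0]
    have h2 : Function.Semiconj (fun x => A.mulVec x + b) (evalMap (conj A b f)) (evalMap f) :=
      fun x => (conj_semi A hA b f x).symm
    have h3 := (h2.iterate_right n) x
    change eval (A.mulVec ((evalMap (conj A b f))^[n] x) + b) P = 0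
    rw [h3]
    exact h1

end Pool.Agent.H9.PCF
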