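import Pool.Agent.H9.PCF.Final

/-!
# Postcritically finite maps in a fiber: countability
-/

namespace Pool.Agent.H9.PCF

open MvPolynomial

variable {N : ℕ}

theorem scale_of_hom {K : Type*} [Field K] {d : ℕ} (s : K) (p : MvPolynomial (Fin N) K)
    (hp : p.IsHomogeneous d) : scale s p = C (s ^ d) * p := by
  ext m
  rw [coeff_scale, coeff_C_mul]
  by_cases hm : m.degree = d
  · rw [hm]
  · rw [hp.coeff_eq_zero hm, mul_zero, mul_zero]

theorem eval_smul_hom {d : ℕ} (s : ℂ) (p : MvPolynomial (Fin N) ℂ) (hp : p.IsHomogeneous d)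
    (x : Fin N → ℂ) : eval (s • x) p = s ^ d * eval x p := by
  have h := eval_scale s p x
  rw [scale_of_hom s p hp, map_mul, eval_C] at h
  rw [h]
  rfl

theorem normal_form {d : ℕ} (hd : 2 ≤ d) {F f : Fin N → MvPolynomial (Fin N) ℂ}
    (hF : IsForms d F) (hf : IsRegularEndo d f) (hr : RestrictsTo d f F) :
    ∃ (A : Matrix (Fin N) (Fin N) ℂ) (b : Fin N → ℂ), A.det ≠ 0 ∧ IsTop d F (conj A b f) ∧
      ∀ j, eval 0 (conj A b f j) = 0 := by
  obtain ⟨A, hA, c, hc, hr⟩ := hr
  obtain ⟨μ, hμ⟩ := IsAlgClosed.exists_pow_nat_eq (c⁻¹) (n := d - 1) (by omega)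
  have hμ0 : μ ≠ 0 := by
    rintro rfl
    rw [zero_pow (by omega)] at hμ
    exact inv_ne_zero hc hμ.symm
  set B : Matrix (Fin N) (Fin N) ℂ := μ • A with hB
  have hBdet : B.det ≠ 0 := by
    rw [hB, Matrix.det_smul]
    exact mul_ne_zero (pow_ne_zero _ hμ0) hA
  have hBr : ∀ x j, eval (B.mulVec x) (homogeneousComponent d (f j))
      = B.mulVec (evalMap F x) j := by
    intro x j
    have h1 := hr (μ • x) j
    have h2 : evalMap F (μ • x) = μ ^ d • evalMap F x := by
      funext i
      exact eval_smul_hom μ (F i) (hF.1 i) x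
    rw [h2, Matrix.mulVec_smul, Matrix.mulVec_smul] at h1
    rw [hB, Matrix.smul_mulVec, Matrix.smul_mulVec, h1]
    simp only [Pi.smul_apply, smul_eq_mul]
    have h3 : μ ^ d = μ * c⁻¹ := by
      rw [← hμ, ← pow_succ']
      congr 1
      omega
    rw [h3]
    field_simp
  -- a fixed point
  obtain ⟨M, hM⟩ := exists_M ℂ _ hf.2.2
  have htop : IsTop d (fun i => homogeneousComponent d (f i)) (fun i => f i - X i) := by
    refine ⟨hf.2.1, fun i => ?_⟩
    have e : f i - X i - homogeneousComponent d (f i)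
        = (f i - homogeneousComponent d (f i)) - X i := by ring
    rw [e]
    refine lt_of_le_of_lt (totalDegree_sub _ _) (max_lt ?_ ?_)
    · exact totalDegree_sub_hc _ (hf.1 i) (by omega)
    · rw [totalDegree_X]
      omega
  obtain ⟨b, hb⟩ := exists_zero (by omega) htop hM
  have hb' : evalMap f b = b := by
    funext j
    have := hb j
    rw [map_sub, eval_X, sub_eq_zero] at this
    exact this
  refine ⟨B, b, hBdet, ?_, ?_⟩
  · have hdeg : ∀ j, (aeval (lin B b) (f j) - C (b j)).totalDegree ≤ d := by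
      intro j
      refine (totalDegree_sub _ _).trans (max_le ?_ ?_)
      · exact (aeval_top _ (totalDegree_lin B b) _ (hf.1 j)).1
      · rw [totalDegree_C]
        omega
    have hhc : ∀ i, homogeneousComponent d (conj B b f i) = F i := by
      intro i
      have e1 : homogeneousComponent d (conj B b f i)
          = ∑ j, C (B⁻¹ i j) * aeval (lin B 0) (homogeneousComponent d (f j)) := by
        rw [conj, map_sum]
        refine Finset.sum_congr rfl fun j _ => ?_
        rw [homogeneousComponent_C_mul, map_sub,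
          (aeval_top _ (totalDegree_lin B b) _ (hf.1 j)).2,
          homogeneousComponent_eq_zero d (C (b j)) (by rw [totalDegree_C]; omega), sub_zero]
        simp only [hc_lin]
      rw [e1]
      apply MvPolynomial.funext
      intro x
      rw [map_sum]
      have e2 : ∀ j, eval x (C (B⁻¹ i j) * aeval (lin B 0) (homogeneousComponent d (f j)))
          = B⁻¹ i j * B.mulVec (evalMap F x) j := by
        intro j
        rw [map_mul, eval_C, eval_comp, eval_lin', add_zero, hBr]
      simp only [e2]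
      have e3 : B⁻¹.mulVec (B.mulVec (evalMap F x)) = evalMap F x := by
        rw [Matrix.mulVec_mulVec, Matrix.nonsing_inv_mul _ (isUnit_iff_ne_zero.2 hBdet),
          Matrix.one_mulVec]
      exact congrFun e3 i
    refine ⟨hF.1, fun i => ?_⟩
    rw [← hhc i]
    apply totalDegree_sub_hc _ _ (by omega)
    rw [conj]
    refine (totalDegree_finsetSum _ _).trans (Finset.sup_le fun j _ => ?_)
    refine (totalDegree_mul _ _).trans ?_
    rw [totalDegree_C, zero_add]
    exact hdeg j
  · intro j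
    have h1 := congrFun (eval_conj B b f 0) j
    rw [Matrix.mulVec_zero, zero_add, hb', sub_self, Matrix.mulVec_zero] at h1
    exact h1

theorem main_field {d : ℕ} (hd : 2 ≤ d) {F : Fin N → MvPolynomial (Fin N) ℂ}
    (hF : IsForms d F) (k : Subfield ℂ) [IsAlgClosed k] (hk : ∀ i m, coeff m (F i) ∈ k)
    (f : Fin N → MvPolynomial (Fin N) ℂ) (hf : IsPCFInFiber d F f) :
    ∃ g, AffineConj f g ∧ ∀ i m, coeff m (g i) ∈ k := by
  obtain ⟨A, b, hA, htop, h0⟩ := normal_form hd hF hf.1 hf.2.2
  refine ⟨conj A b f, ⟨A, b, hA, fun x => conj_semi A hA b f x⟩, ?_⟩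
  have hlift : ∀ i, ∃ q : MvPolynomial (Fin N) k, map k.subtype q = F i := by
    intro i
    have h1 : F i ∈ Set.range (map (σ := Fin N) k.subtype) := by
      rw [mem_range_map_iff_coeffs_subset]
      intro c hc
      rw [Finset.mem_coe, mem_coeffs_iff] at hc
      obtain ⟨m, -, rfl⟩ := hc
      exact ⟨⟨_, hk i m⟩, rfl⟩
    exact h1
  choose F0 hF0 using hlift
  have hhom : ∀ i, (F0 i).IsHomogeneous d := by
    intro i
    apply IsHomogeneous.of_map (f := k.subtype) k.subtype.injective
    rw [hF0]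
    exact hF.1 i
  obtain ⟨M, hM⟩ := exists_M k F0 (by
    intro x hx
    have h1 := hF.2 (fun i => (x i : ℂ)) (by
      intro i
      have h2 := congrArg k.subtype (hx i)
      rw [map_zero] at h2
      rw [← hF0 i, ← h2]
      exact (MvPolynomial.eval₂_comp_left k.subtype (RingHom.id _) x (F0 i)).symm ▸ by
        rw [eval_map]
        rfl)
    funext i
    exact Subtype.ext (congrFun h1 i))
  exact coeff_mem k hd F0 hhom hM (conj A b f) (fun j => by rw [hF0]; exact htop.2 j) h0
    (smallPC_conj A hA b f (smallPC_of_isPCF (by omega) hf.1 hf.2.1))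

theorem AffineConj.symm' {f g : Fin N → MvPolynomial (Fin N) ℂ} (h : AffineConj f g) :
    AffineConj g f := by
  obtain ⟨A, b, hA, h⟩ := h
  have hu : IsUnit A.det := isUnit_iff_ne_zero.2 hA
  refine ⟨A⁻¹, -(A⁻¹.mulVec b), ?_, fun x => ?_⟩
  · rw [Matrix.det_nonsing_inv]
    simpa using hA
  · have h1 := h (A⁻¹.mulVec x + -(A⁻¹.mulVec b))
    have h2 : A.mulVec (A⁻¹.mulVec x + -(A⁻¹.mulVec b)) + b = x := by
      rw [Matrix.mulVec_add, Matrix.mulVec_neg, Matrix.mulVec_mulVec, Matrix.mulVec_mulVec,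
        Matrix.mul_nonsing_inv _ hu, Matrix.one_mulVec, Matrix.one_mulVec]
      abel
    rw [h2] at h1
    rw [h1, Matrix.mulVec_add, Matrix.mulVec_mulVec, Matrix.nonsing_inv_mul _ hu,
      Matrix.one_mulVec]
    abel

theorem AffineConj.trans' {f g h : Fin N → MvPolynomial (Fin N) ℂ} (h₁ : AffineConj f g)
    (h₂ : AffineConj g h) : AffineConj f h := by
  obtain ⟨A, b, hA, h₁⟩ := h₁
  obtain ⟨A', b', hA', h₂⟩ := h₂
  refine ⟨A * A', A.mulVec b' + b, ?_, fun x => ?_⟩
  · rw [Matrix.det_mul]
    exact mul_ne_zero hA hA'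
  · have h1 := h₁ (A'.mulVec x + b')
    rw [h₂ x] at h1
    rw [Matrix.mulVec_add, Matrix.mulVec_add, Matrix.mulVec_mulVec, Matrix.mulVec_mulVec] at h1
    rw [← add_assoc, ← add_assoc]
    exact h1

theorem main_countable {d : ℕ} (hd : 2 ≤ d) {F : Fin N → MvPolynomial (Fin N) ℂ}
    (hF : IsForms d F) : ∃ T : Set (Fin N → MvPolynomial (Fin N) ℂ), T.Countable ∧
      ∀ f, IsPCFInFiber d F f → ∃ g ∈ T, AffineConj f g := by
  classical
  set S : Set ℂ := ⋃ i, ((F i).coeffs : Set ℂ) with hS
  have hSc : S.Countable := Set.countable_iUnion fun i => (Finset.countable_toSet _)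
  set k0 := Subfield.closure S with hk0
  set k1 := algebraicClosure k0 ℂ with hk1
  haveI : IsAlgClosed k1.toSubfield := (algebraicClosure.isAlgClosure k0 ℂ).isAlgClosed
  have hcard0 : Cardinal.mk k0 ≤ Cardinal.aleph0 :=
    (Subfield.cardinalMk_closure_le_max S).trans (max_le (Cardinal.mk_le_aleph0_iff.2 hSc.to_subtype) le_rfl)
  have hcard1 : Cardinal.mk k1 ≤ Cardinal.aleph0 :=
    (Algebra.IsAlgebraic.cardinalMk_le_max k0 k1).trans (max_le hcard0 le_rfl)
  have hcount : Countable k1.toSubfield := Cardinal.mk_le_aleph0_iff.1 hcard1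
  have hmv : Countable (MvPolynomial (Fin N) k1.toSubfield) := by
    rw [← Cardinal.mk_le_aleph0_iff]
    refine MvPolynomial.cardinalMk_le_max.trans (max_le (max_le ?_ ?_) le_rfl)
    · exact hcard1
    · exact Cardinal.mk_le_aleph0
  refine ⟨Set.range fun G : Fin N → MvPolynomial (Fin N) k1.toSubfield =>
    fun i => map k1.toSubfield.subtype (G i), Set.countable_range _, ?_⟩
  intro f hf
  obtain ⟨g, hg, hgk⟩ := main_field hd hF k1.toSubfield (by
    intro i m
    by_cases hm : coeff m (F i) = 0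
    · rw [hm]
      exact zero_mem _
    · have h1 : coeff m (F i) ∈ k0 := by
        apply Subfield.subset_closure
        rw [hS, Set.mem_iUnion]
        exact ⟨i, (mem_coeffs_iff).2 ⟨m, mem_support_iff.2 hm, rfl⟩⟩
      exact k1.algebraMap_mem ⟨_, h1⟩) f hf
  refine ⟨g, ?_, hg⟩
  have hlift : ∀ i, ∃ q : MvPolynomial (Fin N) k1.toSubfield, map k1.toSubfield.subtype q = g i := by
    intro i
    have h1 : g i ∈ Set.range (map (σ := Fin N) k1.toSubfield.subtype) := by
      rw [mem_range_map_iff_coeffs_subset]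
      intro c hc
      rw [Finset.mem_coe, mem_coeffs_iff] at hc
      obtain ⟨m, -, rfl⟩ := hc
      exact ⟨⟨_, hgk i m⟩, rfl⟩
    exact h1
  choose G hG using hlift
  exact ⟨G, funext hG⟩

theorem main_curve {d : ℕ} (hd : 2 ≤ d) {F : Fin N → MvPolynomial (Fin N) ℂ}
    (hF : IsForms d F) (C : Type) [Uncountable C] (φ : C → Fin N → MvPolynomial (Fin N) ℂ)
    (hφ : ∀ c, IsPCFInFiber d F (φ c)) :
    ∃ c₀, ¬ {c | AffineConj (φ c₀) (φ c)}.Countable := by
  by_contra hcon
  push Not at hcon
  obtain ⟨T, hT, hTc⟩ := main_countable hd hF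
  choose t ht hconj using fun c => hTc (φ c) (hφ c)
  have hun : (Set.univ : Set C) = ⋃ g ∈ T, {c | t c = g} := by
    ext c
    simp only [Set.mem_univ, Set.mem_iUnion, Set.mem_setOf_eq, exists_prop, true_iff]
    exact ⟨t c, ht c, rfl⟩
  have hc : (Set.univ : Set C).Countable := by
    rw [hun]
    refine hT.biUnion fun g _ => ?_
    by_cases hne : ∃ c₁, t c₁ = g
    · obtain ⟨c₁, hc₁⟩ := hne
      refine (hcon c₁).mono ?_
      intro c hc
      simp only [Set.mem_setOf_eq] at hc ⊢
      have h1 := hconj c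
      have h2 := hconj c₁
      rw [hc] at h1
      rw [hc₁] at h2
      exact h2.trans' h1.symm'
    · push Not at hne
      have : {c | t c = g} = ∅ := by
        ext c
        simp [hne c]
      rw [this]
      exact Set.countable_empty
  exact not_countable (Set.countable_univ_iff.1 hc)

end Pool.Agent.H9.PCF
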