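import Pool.Agent.H9.PCF.Basic

/-!
# Homogeneous components and integrality over the components of a finite map
-/

namespace Pool.Agent.H9.PCF

open MvPolynomial

variable {κ : Type*} [Field κ] {N : ℕ}

section hc

attribute [local instance] MvPolynomial.gradedAlgebra

theorem hc_mul_hom {n d : ℕ} (p q : MvPolynomial (Fin N) κ) (hq : q.IsHomogeneous d)
    (hd : d ≤ n) : homogeneousComponent n (p * q) = homogeneousComponent (n - d) p * q := by
  have h := DirectSum.coe_decompose_mul_of_right_mem_of_le
    (𝒜 := homogeneousSubmodule (Fin N) κ) (a := p) (b := q) (i := d) (n := n)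
    ((mem_homogeneousSubmodule _ _).2 hq) hd
  have e1 : ∀ (r : MvPolynomial (Fin N) κ) (i : ℕ),
      (DirectSum.decompose (homogeneousSubmodule (Fin N) κ) r i : MvPolynomial (Fin N) κ)
        = homogeneousComponent i r := fun r i => decomposition.decompose'_apply r i
  rw [e1, e1] at h
  exact h

end hc

/-- Removing the top component lowers the degree. -/
theorem totalDegree_sub_hc {n : ℕ} (p : MvPolynomial (Fin N) κ) (h : p.totalDegree ≤ n)
    (hn : 0 < n) : (p - homogeneousComponent n p).totalDegree < n := by
  refine (Finset.sup_lt_iff hn).2 ?_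
  intro m hm
  rw [mem_support_iff, coeff_sub, coeff_homogeneousComponent] at hm
  split_ifs at hm with h1
  · exact absurd (sub_self _) hm
  · rw [sub_zero] at hm
    have h2 := le_totalDegree (mem_support_iff.2 hm)
    have h3 : (m.sum fun _ e => e) = m.degree := by
      rw [Finsupp.degree_apply, Finsupp.sum]
    omega

theorem hc_mul_top {a b : ℕ} (p q : MvPolynomial (Fin N) κ) (hp : p.totalDegree ≤ a)
    (hq : q.totalDegree ≤ b) : homogeneousComponent (a + b) (p * q)
      = homogeneousComponent a p * homogeneousComponent b q := by
  have e : p * q = p * homogeneousComponent b q + p * (q - homogeneousComponent b q) := by ring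
  rw [e, map_add, hc_mul_hom _ _ (homogeneousComponent_isHomogeneous b q) (by omega),
    Nat.add_sub_cancel]
  rcases Nat.eq_zero_or_pos b with rfl | hb
  · have : q - homogeneousComponent 0 q = 0 := by
      rw [homogeneousComponent_zero, sub_eq_zero]
      exact totalDegree_eq_zero_iff_eq_C.1 (Nat.le_zero.1 hq)
    rw [this, mul_zero, map_zero, add_zero]
  · have h1 := totalDegree_sub_hc q hq hb
    have h2 := totalDegree_mul p (q - homogeneousComponent b q)
    rw [homogeneousComponent_eq_zero (a + b) (p * (q - homogeneousComponent b q)) (by omega),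
      add_zero]

/-- `f` has top part `F`, homogeneous of degree `d`. -/
def IsTop (d : ℕ) (F f : Fin N → MvPolynomial (Fin N) κ) : Prop :=
  (∀ i, (F i).IsHomogeneous d) ∧ ∀ i, (f i - F i).totalDegree < d

/-- The forms `F` have only the trivial common zero (with an exponent). -/
def HasM (F : Fin N → MvPolynomial (Fin N) κ) (M : ℕ) : Prop :=
  ∀ i, (X i : MvPolynomial (Fin N) κ) ^ M ∈ Ideal.span (Set.range F)

theorem hc_mem {F : Fin N → MvPolynomial (Fin N) κ} {M : ℕ} (hM : HasM F M) {n : ℕ}
    (hn : N * M < n) (p : MvPolynomial (Fin N) κ) :
    homogeneousComponent n p ∈ Ideal.span (Set.range F) := by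
  rw [(homogeneousComponent n p).as_sum]
  refine Ideal.sum_mem _ fun m hm => ?_
  rw [mem_support_iff, coeff_homogeneousComponent] at hm
  have hmn : m.degree = n := by
    by_contra h
    rw [if_neg h] at hm
    exact hm rfl
  obtain ⟨i, hi⟩ : ∃ i, M ≤ m i := by
    by_contra hall
    push_neg at hall
    have : m.degree ≤ N * M := by
      rw [Finsupp.degree_eq_sum]
      calc ∑ i, m i ≤ ∑ _i : Fin N, M := Finset.sum_le_sum fun i _ => (hall i).le
        _ = N * M := by simp
    omega
  have e : monomial m (coeff m (homogeneousComponent n p))
      = monomial (m - Finsupp.single i M) (coeff m (homogeneousComponent n p)) * X i ^ M := by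
    rw [X_pow_eq_monomial, monomial_mul, mul_one, tsub_add_cancel_of_le]
    rw [Finsupp.single_le_iff]
    exact hi
  rw [e]
  exact Ideal.mul_mem_left _ _ (hM i)

/-- The polynomial ring is integral over the components of a map with top part `F`. -/
theorem isIntegral {d M : ℕ} (hd : 1 ≤ d) {F f : Fin N → MvPolynomial (Fin N) κ}
    (hF : IsTop d F f) (hM : HasM F M) :
    (aeval f : MvPolynomial (Fin N) κ →ₐ[κ] MvPolynomial (Fin N) κ).toRingHom.IsIntegral := by
  classical
  set A : Subalgebra κ (MvPolynomial (Fin N) κ) := (aeval f).range with hA
  set B : Set (MvPolynomial (Fin N) κ) :=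
    (fun m : Fin N →₀ ℕ => (monomial m (1 : κ))) '' {m | m.degree ≤ N * M + d} with hB
  have hfin : B.Finite := by
    apply Set.Finite.image
    have : Set.Finite (⋃ n ∈ Finset.range (N * M + d + 1), {m : Fin N →₀ ℕ | m.degree = n}) := by
      apply Set.Finite.biUnion (Finset.finite_toSet _)
      intro n _
      have h := (Finset.finsuppAntidiag (Finset.univ : Finset (Fin N)) n).finite_toSet
      refine h.subset ?_
      intro m hm
      simp only [Set.mem_setOf_eq] at hm
      simp only [Finset.mem_coe, Finset.mem_finsuppAntidiag, Finset.subset_univ, and_true]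
      rw [Finsupp.degree_eq_sum] at hm
      exact hm
    refine this.subset ?_
    intro m hm
    simp only [Set.mem_setOf_eq] at hm
    simp only [Set.mem_iUnion, Finset.mem_range]
    exact ⟨m.degree, by omega, rfl⟩
  have hspan : ∀ n : ℕ, ∀ p : MvPolynomial (Fin N) κ, p.totalDegree ≤ n →
      p ∈ Submodule.span A B := by
    intro n
    induction n using Nat.strong_induction_on with
    | _ n ih =>
      intro p hp
      by_cases hn : n ≤ N * M + d
      · rw [p.as_sum]
        refine Submodule.sum_mem _ fun m hm => ?_
        have h1 := le_totalDegree hm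
        have h3 : (m.sum fun _ e => e) = m.degree := by
          rw [Finsupp.degree_apply, Finsupp.sum]
        have e : monomial m (coeff m p) = (algebraMap κ A (coeff m p)) • monomial m (1 : κ) := by
          rw [algebraMap_smul, smul_monomial, smul_eq_mul, mul_one]
        rw [e]
        apply Submodule.smul_mem
        apply Submodule.subset_span
        exact ⟨m, by simp only [Set.mem_setOf_eq]; omega, rfl⟩
      · push_neg at hn
        have h1 := hc_mem hM (n := n) (by omega) p
        rw [Ideal.mem_span_range_iff_exists_fun] at h1
        obtain ⟨c, hc⟩ := h1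
        have h2 : homogeneousComponent n p = ∑ i, homogeneousComponent (n - d) (c i) * F i := by
          have := congrArg (homogeneousComponent n) hc
          rw [homogeneousComponent_eq_self (homogeneousComponent_isHomogeneous n p), map_sum]
            at this
          rw [← this]
          exact Finset.sum_congr rfl fun i _ => hc_mul_hom _ _ (hF.1 i) (by omega)
        have h3 : p = ∑ i, (⟨f i, ⟨X i, by simp⟩⟩ : A) • homogeneousComponent (n - d) (c i)
            - ∑ i, homogeneousComponent (n - d) (c i) * (f i - F i)
            + (p - homogeneousComponent n p) := by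
          rw [← Finset.sum_sub_distrib]
          have : ∀ i, (⟨f i, ⟨X i, by simp⟩⟩ : A) • homogeneousComponent (n - d) (c i)
              = f i * homogeneousComponent (n - d) (c i) := fun i => rfl
          simp only [this]
          have e : ∑ i, (f i * homogeneousComponent (n - d) (c i)
              - homogeneousComponent (n - d) (c i) * (f i - F i))
              = ∑ i, homogeneousComponent (n - d) (c i) * F i :=
            Finset.sum_congr rfl fun i _ => by ring
          rw [e, ← h2]
          ring
        rw [h3]
        refine Submodule.add_mem _ (Submodule.sub_mem _ ?_ ?_) ?_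
        · refine Submodule.sum_mem _ fun i _ => Submodule.smul_mem _ _ ?_
          exact ih (n - d) (by omega) _ (homogeneousComponent_isHomogeneous _ _).totalDegree_le
        · refine Submodule.sum_mem _ fun i _ => ?_
          refine ih (n - 1) (by omega) _ ?_
          have g1 := totalDegree_mul (homogeneousComponent (n - d) (c i)) (f i - F i)
          have g2 := (homogeneousComponent_isHomogeneous (n - d) (c i)).totalDegree_le
          have g3 := hF.2 i
          omega
        · refine ih (n - 1) (by omega) _ ?_
          have := totalDegree_sub_hc p hp (by omega)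
          omega
  have hfinite : Module.Finite A (MvPolynomial (Fin N) κ) := by
    refine ⟨⟨hfin.toFinset, ?_⟩⟩
    rw [Set.Finite.coe_toFinset, eq_top_iff]
    intro p _
    exact hspan _ p le_rfl
  intro p
  obtain ⟨q, hq, hq0⟩ := IsIntegral.of_finite A p
  -- lift the monic polynomial to the polynomial ring
  set g := (AlgHom.rangeRestrict
    (aeval f : MvPolynomial (Fin N) κ →ₐ[κ] MvPolynomial (Fin N) κ)).toRingHom with hg
  have hsurj : Function.Surjective g :=
    AlgHom.rangeRestrict_surjective (aeval f : MvPolynomial (Fin N) κ →ₐ[κ] _)
  obtain ⟨r, hr, -, hrm⟩ := Polynomial.lifts_and_natDegree_eq_and_monic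
    (f := g) (p := q) ((Polynomial.mem_lifts _).2 (Polynomial.map_surjective g hsurj q)) hq
  refine ⟨r, hrm, ?_⟩
  rw [← hr, Polynomial.eval₂_map] at hq0
  exact hq0

end Pool.Agent.H9.PCF
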