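import Pool.Agent.H9.PCF.Euler

/-!
# A map whose critical values lie on cones is a translate of its top part
-/

namespace Pool.Agent.H9.PCF

open MvPolynomial

variable {κ : Type*} [Field κ] {N : ℕ}

theorem deg_eq (m : Fin N →₀ ℕ) : (m.sum fun _ e => e) = m.degree := by
  rw [Finsupp.degree_apply, Finsupp.sum]

theorem totalDegree_pderiv_le {d : ℕ} (p : MvPolynomial (Fin N) κ) (i : Fin N)
    (hp : p.totalDegree ≤ d) : (pderiv i p).totalDegree ≤ d - 1 := by
  refine Finset.sup_le fun m hm => ?_
  rw [mem_support_iff, coeff_pderiv] at hm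
  have hm' : coeff (m + Finsupp.single i 1) p ≠ 0 := fun h => hm (by rw [h]; simp)
  have h1 := le_totalDegree (mem_support_iff.2 hm')
  have e : ((m + Finsupp.single i 1).sum fun _ e => e) = (m.sum fun _ e => e) + 1 := by
    rw [Finsupp.sum_add_index' (by simp) (by intros; rfl)]
    simp
  omega

theorem hc_pderiv (n : ℕ) (i : Fin N) (p : MvPolynomial (Fin N) κ) :
    homogeneousComponent n (pderiv i p) = pderiv i (homogeneousComponent (n + 1) p) := by
  ext m
  rw [coeff_homogeneousComponent, coeff_pderiv, coeff_pderiv, coeff_homogeneousComponent]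
  have e : (m + Finsupp.single i 1).degree = m.degree + 1 := by simp
  rw [e]
  by_cases h : m.degree = n
  · rw [if_pos h, if_pos (by omega)]
  · rw [if_neg h, if_neg (by omega), zero_mul]

theorem IsTop.hc {d : ℕ} {F f : Fin N → MvPolynomial (Fin N) κ} (hF : IsTop d F f) (j : Fin N) :
    homogeneousComponent d (f j) = F j := by
  have e : f j = F j + (f j - F j) := by ring
  rw [e, map_add, homogeneousComponent_eq_self (hF.1 j),
    homogeneousComponent_eq_zero d (f j - F j) (hF.2 j), add_zero]

theorem IsTop.deg {d : ℕ} {F f : Fin N → MvPolynomial (Fin N) κ} (hF : IsTop d F f) (j : Fin N) :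
    (f j).totalDegree ≤ d := by
  have e : f j = F j + (f j - F j) := by ring
  rw [e]
  refine (totalDegree_add _ _).trans (max_le (hF.1 j).totalDegree_le (hF.2 j).le)

theorem IsTop.refl {d : ℕ} (hd : 1 ≤ d) {F : Fin N → MvPolynomial (Fin N) κ}
    (hF : ∀ i, (F i).IsHomogeneous d) : IsTop d F F := by
  refine ⟨hF, fun i => ?_⟩
  rw [sub_self, totalDegree_zero]
  exact hd

theorem linear_field [CharZero κ] {d : ℕ} (hd : 1 ≤ d) {F f : Fin N → MvPolynomial (Fin N) κ}
    (hF : IsTop d F f) (hjF : jac F ≠ 0) (V : Fin N → MvPolynomial (Fin N) κ)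
    (hV : ∀ j, der V (f j) = f j) :
    ∃ a : Fin N → κ, ∀ i, V i = C ((d : κ)⁻¹) * (X i - C (a i)) := by
  classical
  have hdκ : (d : κ) ≠ 0 := by exact_mod_cast (by omega : d ≠ 0)
  -- top components
  have htop : ∀ e : ℕ, (∀ i, (V i).totalDegree ≤ e) → ∀ j,
      ∑ i, pderiv i (F j) * homogeneousComponent e (V i)
        = homogeneousComponent (e + (d - 1)) (f j) := by
    intro e he j
    conv_rhs => rw [← hV j]
    rw [der, map_sum]
    refine Finset.sum_congr rfl fun i _ => ?_
    rw [hc_mul_top _ _ (he i) (totalDegree_pderiv_le _ i (hF.deg j)), hc_pderiv]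
    have : d - 1 + 1 = d := by omega
    rw [this, hF.hc, mul_comm]
  have hker : ∀ v : Fin N → MvPolynomial (Fin N) κ,
      (∀ j, ∑ i, pderiv i (F j) * v i = 0) → ∀ i, v i = 0 := by
    intro v hv
    have h3 := Matrix.eq_zero_of_mulVec_eq_zero (M := Matrix.of fun i j => pderiv j (F i))
      (v := v) hjF (by
        funext j
        simp only [Matrix.mulVec, dotProduct, Matrix.of_apply, Pi.zero_apply]
        exact hv j)
    exact fun i => congrFun h3 i
  -- all components have degree at most one
  have hdeg : ∀ i, (V i).totalDegree ≤ 1 := by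
    by_contra hcon
    push Not at hcon
    obtain ⟨i₁, hi₁⟩ := hcon
    obtain ⟨i₀, -, hi₀⟩ := Finset.exists_max_image Finset.univ (fun i => (V i).totalDegree)
      ⟨i₁, Finset.mem_univ _⟩
    have h2 : 2 ≤ (V i₀).totalDegree := by
      have := hi₀ i₁ (Finset.mem_univ _)
      omega
    have h3 := hker (fun i => homogeneousComponent (V i₀).totalDegree (V i)) (by
      intro j
      rw [htop _ (fun i => hi₀ i (Finset.mem_univ _)) j]
      apply homogeneousComponent_eq_zero
      have := hF.deg j
      omega) i₀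
    have h4 := totalDegree_sub_hc (V i₀) le_rfl (by omega)
    rw [h3, sub_zero] at h4
    omega
  have h1 : ∀ i, C (d : κ) * homogeneousComponent 1 (V i) - X i = 0 := by
    apply hker
    intro j
    have e1 := htop 1 hdeg j
    have e2 := euler_of_hom (F j) (hF.1 j)
    have e3 : 1 + (d - 1) = d := by omega
    rw [e3, hF.hc] at e1
    have e4 : ∑ i, pderiv i (F j) * (C (d : κ) * homogeneousComponent 1 (V i) - X i)
        = C (d : κ) * ∑ i, pderiv i (F j) * homogeneousComponent 1 (V i)
          - ∑ i, X i * pderiv i (F j) := by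
      rw [Finset.mul_sum, ← Finset.sum_sub_distrib]
      exact Finset.sum_congr rfl fun i _ => by ring
    rw [e4, e1, e2, sub_self]
  have h2 : ∀ i, ∃ b : κ, V i - homogeneousComponent 1 (V i) = C b := by
    intro i
    have h3 := totalDegree_sub_hc (V i) (hdeg i) (by omega)
    exact ⟨_, totalDegree_eq_zero_iff_eq_C.1 (by omega)⟩
  choose b hb using h2
  refine ⟨fun i => -(d * b i), fun i => ?_⟩
  have e1 := hb i
  have e2 := h1 i
  have e3 : homogeneousComponent 1 (V i) = C ((d : κ)⁻¹) * X i := by
    have : X i = C (d : κ) * homogeneousComponent 1 (V i) := (sub_eq_zero.1 e2).symm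
    rw [this, ← mul_assoc, ← C_mul, inv_mul_cancel₀ hdκ, C_1, one_mul]
  rw [e3] at e1
  have e4 : V i = C ((d : κ)⁻¹) * X i + C (b i) := by linear_combination e1
  have e5 : (C (b i) : MvPolynomial (Fin N) κ) = C ((d : κ)⁻¹) * C (d * b i) := by
    rw [← C_mul, ← mul_assoc, inv_mul_cancel₀ hdκ, one_mul]
  rw [e4, e5, C_neg]
  ring

theorem rigid [CharZero κ] {d M : ℕ} (hd : 1 ≤ d) {F f : Fin N → MvPolynomial (Fin N) κ}
    (hF : IsTop d F f) (hM : HasM F M) (H : MvPolynomial (Fin N) κ) {h : ℕ}
    (hH : H.IsHomogeneous h) (hH0 : H ≠ 0) (k : ℕ) (hdvd : jac f ∣ (aeval f H) ^ k)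
    (h0 : ∀ j, eval 0 (f j) = 0) : ∀ j, f j = F j := by
  classical
  have hdκ : (d : κ) ≠ 0 := by exact_mod_cast (by omega : d ≠ 0)
  have hint := isIntegral hd hF hM
  have hj := jac_ne_zero f hint
  have hjF := jac_ne_zero F (isIntegral hd (IsTop.refl hd hF.1) hM)
  have hinj := aeval_injective f hj
  -- the vector field
  obtain ⟨V, hV⟩ := lift_step (F := F) hint hinj H hH hH0 k _ (jac f)
    (Matrix.mulVec (Matrix.adjugate (Matrix.of fun i j => pderiv j (f i))) f) hj hdvd (by
      intro j
      have e1 : der (Matrix.mulVec (Matrix.adjugate (Matrix.of fun i j => pderiv j (f i))) f) (f j)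
          = Matrix.mulVec (Matrix.of fun i j => pderiv j (f i))
            (Matrix.mulVec (Matrix.adjugate (Matrix.of fun i j => pderiv j (f i))) f) j := by
        rw [der]
        conv_rhs => rw [Matrix.mulVec, dotProduct]
        simp only [Matrix.of_apply]
        exact Finset.sum_congr rfl fun i _ => mul_comm _ _
      rw [e1, Matrix.mulVec_mulVec, Matrix.mul_adjugate, Matrix.smul_mulVec, Matrix.one_mulVec]
      rfl) rfl
  obtain ⟨a, ha⟩ := linear_field hd hF hjF V hV
  -- the translated map
  set L : Fin N → MvPolynomial (Fin N) κ := fun i => X i + C (a i) with hL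
  have hLd : ∀ i, (L i).totalDegree ≤ 1 := by
    intro i
    refine (totalDegree_add _ _).trans (max_le ?_ ?_)
    · rw [totalDegree_X]
    · rw [totalDegree_C]; omega
  have hL1 : ∀ i, homogeneousComponent 1 (L i) = X i := by
    intro i
    rw [hL]
    simp only [map_add]
    rw [homogeneousComponent_eq_self (isHomogeneous_X κ i),
      homogeneousComponent_eq_zero 1 (C (a i)) (by rw [totalDegree_C]; omega), add_zero]
  have hLder : ∀ (p : MvPolynomial (Fin N) κ) (i : Fin N),
      pderiv i (aeval L p) = aeval L (pderiv i p) := by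
    intro p i
    rw [pderiv_aeval, Finset.sum_eq_single i]
    · simp [hL]
    · intro j _ hj
      simp only [hL, map_add, pderiv_C, add_zero]
      rw [pderiv_X, Pi.single_apply, if_neg hj, mul_zero]
    · simp
  have hg : ∀ j, (aeval L (f j)).IsHomogeneous d := by
    intro j
    apply hom_of_euler
    have e1 := congrArg (aeval L) (hV j)
    rw [der, map_sum] at e1
    have e2 : ∀ i, aeval L (V i * pderiv i (f j))
        = C ((d : κ)⁻¹) * (X i * pderiv i (aeval L (f j))) := by
      intro i
      rw [map_mul, ha i, map_mul, map_sub, aeval_C, aeval_C, aeval_X, hLder]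
      simp only [algebraMap_eq, hL]
      ring
    simp only [e2] at e1
    rw [← Finset.mul_sum] at e1
    rw [← e1, ← mul_assoc, ← C_mul, mul_inv_cancel₀ hdκ, C_1, one_mul]
    simp only [e1]
  have hgF : ∀ j, aeval L (f j) = F j := by
    intro j
    have h1 := (aeval_top L hLd (f j) (hF.deg j)).2
    rw [homogeneousComponent_eq_self (hg j), hF.hc] at h1
    simp only [hL1] at h1
    rw [h1]
    exact aeval_X_left_apply _
  have ha0 : ∀ i, a i = 0 := by
    have h1 : ∀ j, eval (fun i => - a i) (F j) = 0 := by
      intro j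
      rw [← hgF j, ← h0 j]
      have : eval (fun i => - a i) (aeval L (f j)) = eval (fun i => eval (fun i => - a i) (L i)) (f j) := by
        rw [← coe_aeval_eq_eval]
        change aeval _ (aeval L (f j)) = _
        rw [← AlgHom.comp_apply, comp_aeval]
        rfl
      rw [this]
      congr 2
      funext i
      simp [hL]
    intro i
    have h2 := hM i
    rw [Ideal.mem_span_range_iff_exists_fun] at h2
    obtain ⟨c, hc⟩ := h2
    have h3 := congrArg (eval (fun i => - a i)) hc
    rw [map_sum] at h3
    simp only [map_mul, h1, mul_zero, Finset.sum_const_zero, map_pow, eval_X] at h3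
    have h4 := eq_zero_of_pow_eq_zero h3.symm
    exact neg_eq_zero.1 h4
  intro j
  rw [← hgF j]
  have : L = X := by
    funext i
    simp [hL, ha0 i]
  rw [this]
  exact (aeval_X_left_apply _).symm

end Pool.Agent.H9.PCF
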