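import Pool.Agent.H9.PCF.Rigid

/-!
# Polynomials over a valuation ring
-/

namespace Pool.Agent.H9.PCF

open MvPolynomial

theorem aeval_aeval' {R : Type*} [CommRing R] {N : ℕ} (V W : Fin N → MvPolynomial (Fin N) R)
    (p : MvPolynomial (Fin N) R) : aeval W (aeval V p) = aeval (fun i => aeval W (V i)) p :=
  bind₁_bind₁ V W p

section scale

variable {K : Type*} [Field K] {N : ℕ}

/-- The polynomial `p(sw)`. -/
noncomputable def scale (s : K) : MvPolynomial (Fin N) K →ₐ[K] MvPolynomial (Fin N) K :=
  aeval (fun i => C s * X i)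

theorem scale_monomial (s : K) (m : Fin N →₀ ℕ) (c : K) :
    scale s (monomial m c) = C (s ^ m.degree) * monomial m c := by
  rw [scale, aeval_monomial, Finsupp.prod_fintype _ _ (by simp)]
  simp only [mul_pow, Finset.prod_mul_distrib]
  rw [Finset.prod_pow_eq_pow_sum, ← Finsupp.degree_eq_sum, monomial_eq,
    Finsupp.prod_fintype _ _ (by simp), ← C_pow]
  simp only [algebraMap_eq]
  ring

theorem coeff_scale (s : K) (p : MvPolynomial (Fin N) K) (m : Fin N →₀ ℕ) :
    coeff m (scale s p) = s ^ m.degree * coeff m p := by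
  classical
  induction p using MvPolynomial.induction_on' with
  | monomial u a =>
    rw [scale_monomial, coeff_C_mul, coeff_monomial]
    split_ifs with h
    · rw [h]
    · simp
  | add p q hp hq => rw [map_add, coeff_add, coeff_add, hp, hq, mul_add]

theorem pderiv_scale (s : K) (p : MvPolynomial (Fin N) K) (i : Fin N) :
    pderiv i (scale s p) = C s * scale s (pderiv i p) := by
  rw [scale, pderiv_aeval, Finset.sum_eq_single i]
  · rw [pderiv_mul, pderiv_C, zero_mul, zero_add, pderiv_X_self, mul_one, mul_comm]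
  · intro j _ hj
    rw [pderiv_mul, pderiv_C, zero_mul, zero_add, pderiv_X, Pi.single_apply, if_neg hj, mul_zero,
      mul_zero]
  · simp

theorem jac_scale (c s : K) (f : Fin N → MvPolynomial (Fin N) K) :
    jac (fun j => C c * scale s (f j)) = C ((c * s) ^ N) * scale s (jac f) := by
  rw [jac, jac, AlgHom.map_det, C_pow]
  have e : (Matrix.of fun i j => pderiv j (C c * scale s (f i)))
      = (C (c * s) : MvPolynomial (Fin N) K) •
        (scale s).mapMatrix (Matrix.of fun i j => pderiv j (f i)) := by
    ext1 i j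
    simp only [Matrix.of_apply, Matrix.smul_apply, AlgHom.mapMatrix_apply, Matrix.map_apply,
      smul_eq_mul]
    rw [pderiv_C_mul, pderiv_scale, C_mul, mul_assoc]
  rw [e, Matrix.det_smul, Fintype.card_fin]

theorem aeval_scale (s : K) (p : MvPolynomial (Fin N) K) (W : Fin N → MvPolynomial (Fin N) K) :
    aeval W (scale s p) = aeval (fun i => C s * W i) p := by
  rw [scale, aeval_aeval']
  have : (fun i => aeval W (C s * X i : MvPolynomial (Fin N) K)) = fun i => C s * W i := by
    funext i
    rw [map_mul, aeval_C, aeval_X]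
    rfl
  rw [this]

theorem eval_scale (s : K) (p : MvPolynomial (Fin N) K) (x : Fin N → K) :
    eval x (scale s p) = eval (fun i => s * x i) p := by
  rw [scale, ← coe_aeval_eq_eval, ← coe_aeval_eq_eval]
  change ((aeval x).comp (aeval fun i => C s * X i)) p = _
  rw [comp_aeval]
  have : (fun i => aeval x (C s * X i : MvPolynomial (Fin N) K)) = fun i => s * x i := by
    funext i
    simp
  rw [this]
  rfl

theorem scale_aeval (s : K) (p : MvPolynomial (Fin N) K) (W : Fin N → MvPolynomial (Fin N) K) :
    scale s (aeval W p) = aeval (fun i => scale s (W i)) p := by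
  change ((scale s).comp (aeval W)) p = _
  rw [comp_aeval]

end scale

section maps

variable {R S : Type*} [CommRing R] [CommRing S] {N : ℕ}

theorem map_aeval' (φ : R →+* S) (W : Fin N → MvPolynomial (Fin N) R)
    (p : MvPolynomial (Fin N) R) :
    map φ (aeval W p) = aeval (fun i => map φ (W i)) (map φ p) :=
  map_bind₁ φ W p

theorem map_jac (φ : R →+* S) (f : Fin N → MvPolynomial (Fin N) R) :
    map φ (jac f) = jac (fun i => map φ (f i)) := by
  rw [jac, jac, RingHom.map_det]
  congr 1
  ext1 i j
  simp only [RingHom.mapMatrix_apply, Matrix.map_apply, Matrix.of_apply, pderiv_map]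

/-- The iterates, by substitution. -/
noncomputable def iter (f : Fin N → MvPolynomial (Fin N) R) :
    ℕ → Fin N → MvPolynomial (Fin N) R
  | 0 => X
  | n + 1 => fun i => aeval (iter f n) (f i)

theorem eval_iter (f : Fin N → MvPolynomial (Fin N) R) (n : ℕ) (x : Fin N → R) :
    (fun i => eval x (iter f n i)) = (fun (y : Fin N → R) i => eval y (f i))^[n] x := by
  induction n with
  | zero => funext i; simp [iter]
  | succ n ih =>
    rw [Function.iterate_succ_apply', ← ih]
    funext i
    simp only [iter]
    rw [← coe_aeval_eq_eval, ← coe_aeval_eq_eval]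
    change ((aeval x).comp (aeval (iter f n))) (f i) = _
    rw [comp_aeval]
    rfl

theorem iter_hom {d : ℕ} (f : Fin N → MvPolynomial (Fin N) R)
    (hf : ∀ i, (f i).IsHomogeneous d) (n : ℕ) (i : Fin N) :
    (iter f n i).IsHomogeneous (d ^ n) := by
  induction n generalizing i with
  | zero => exact isHomogeneous_X R i
  | succ n ih =>
    rw [pow_succ]
    exact (hf i).aeval (iter f n) ih

theorem iter_inj (f : Fin N → MvPolynomial (Fin N) R)
    (hf : ∀ p : MvPolynomial (Fin N) R, aeval f p = 0 → p = 0) (n : ℕ) :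
    ∀ p : MvPolynomial (Fin N) R, aeval (iter f n) p = 0 → p = 0 := by
  induction n with
  | zero =>
    intro p hp
    have : aeval (iter f 0) p = p := aeval_X_left_apply p
    rwa [this] at hp
  | succ n ih =>
    intro p hp
    apply hf
    apply ih
    rw [← hp]
    change ((aeval (iter f n)).comp (aeval f)) p = _
    rw [comp_aeval]
    rfl

end maps

section val

variable {K : Type*} [Field K] {N : ℕ} (O : ValuationSubring K)

theorem exists_lift (p : MvPolynomial (Fin N) K) (h : ∀ m, coeff m p ∈ O) :
    ∃ q : MvPolynomial (Fin N) O, map O.subtype q = p := by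
  have h1 : p ∈ Set.range (map (σ := Fin N) O.subtype) := by
    rw [mem_range_map_iff_coeffs_subset]
    intro c hc
    rw [Finset.mem_coe, mem_coeffs_iff] at hc
    obtain ⟨m, -, rfl⟩ := hc
    exact ⟨⟨_, h m⟩, rfl⟩
  exact h1

theorem map_sub_inj : Function.Injective (map (σ := Fin N) O.subtype) :=
  map_injective _ O.subtype_injective

/-- Dividing a nonzero polynomial by a largest coefficient. -/
theorem exists_max_coeff (p : MvPolynomial (Fin N) K) (hp : p ≠ 0) :
    ∃ m₀, coeff m₀ p ≠ 0 ∧ ∀ m, O.valuation (coeff m p) ≤ O.valuation (coeff m₀ p) := by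
  have hne : p.support.Nonempty := by
    rw [Finset.nonempty_iff_ne_empty]
    intro he
    exact hp (MvPolynomial.support_eq_empty.1 he)
  obtain ⟨m₀, hm₀, hmax⟩ := Finset.exists_max_image p.support (fun m => O.valuation (coeff m p)) hne
  refine ⟨m₀, mem_support_iff.1 hm₀, fun m => ?_⟩
  by_cases hm : m ∈ p.support
  · exact hmax m hm
  · rw [notMem_support_iff.1 hm, map_zero]
    exact zero_le

theorem residue_zero (a : O) (h : O.valuation (a : K) < 1) : IsLocalRing.residue O a = 0 := by
  rw [IsLocalRing.residue_eq_zero_iff]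
  exact (O.valuation_lt_one_iff a).2 h

theorem residue_ne_zero (a : O) (h : O.valuation (a : K) = 1) : IsLocalRing.residue O a ≠ 0 := by
  intro h0
  rw [IsLocalRing.residue_eq_zero_iff, O.valuation_lt_one_iff] at h0
  exact absurd h (ne_of_lt h0)

theorem exists_normal (p : MvPolynomial (Fin N) K) (hp : p ≠ 0) :
    ∃ m₀, coeff m₀ p ≠ 0 ∧ (∀ m, O.valuation (coeff m p) ≤ O.valuation (coeff m₀ p)) ∧
      ∃ q : MvPolynomial (Fin N) O, map O.subtype q = C (coeff m₀ p)⁻¹ * p ∧
        coeff m₀ (map (IsLocalRing.residue O) q) = 1 ∧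
        ∀ m, O.valuation (coeff m p) < O.valuation (coeff m₀ p) →
          coeff m (map (IsLocalRing.residue O) q) = 0 := by
  obtain ⟨m₀, h0, hmax⟩ := exists_max_coeff O p hp
  have hv0 : O.valuation (coeff m₀ p) ≠ 0 := (Valuation.ne_zero_iff _).2 h0
  obtain ⟨q, hq⟩ := exists_lift O (C (coeff m₀ p)⁻¹ * p) (by
    intro m
    rw [coeff_C_mul, ← O.valuation_le_one_iff, map_mul, map_inv₀]
    rw [inv_mul_le_iff₀ (zero_lt_iff.2 hv0), mul_one]
    exact hmax m)
  have hc : ∀ m, ((coeff m q : O) : K) = (coeff m₀ p)⁻¹ * coeff m p := by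
    intro m
    have := congrArg (coeff m) hq
    rw [coeff_map, coeff_C_mul] at this
    exact this
  refine ⟨m₀, h0, hmax, q, hq, ?_, ?_⟩
  · rw [coeff_map]
    have : coeff m₀ q = 1 := by
      apply O.subtype_injective
      change ((coeff m₀ q : O) : K) = ((1 : O) : K)
      rw [hc, inv_mul_cancel₀ h0]
      rfl
    rw [this, map_one]
  · intro m hm
    rw [coeff_map]
    apply residue_zero
    rw [hc, map_mul, map_inv₀, inv_mul_lt_iff₀ (zero_lt_iff.2 hv0), mul_one]
    exact hm

/-- Gauss's lemma over a valuation ring. -/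
theorem gauss (A B : MvPolynomial (Fin N) O) (hA : map (IsLocalRing.residue O) A ≠ 0)
    (h : map O.subtype A ∣ map O.subtype B) :
    map (IsLocalRing.residue O) A ∣ map (IsLocalRing.residue O) B := by
  obtain ⟨h, hh⟩ := h
  by_cases h0 : h = 0
  · rw [h0, mul_zero] at hh
    have : B = 0 := map_sub_inj O (by rw [hh, map_zero])
    rw [this, map_zero]
    exact dvd_zero _
  · obtain ⟨m₀, hm0, hmax, q, hq, hq1, -⟩ := exists_normal O h h0
    have hqr : map (IsLocalRing.residue O) q ≠ 0 := by
      intro hz
      rw [hz, coeff_zero] at hq1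
      exact zero_ne_one hq1
    have hO : coeff m₀ h ∈ O := by
      by_contra hn
      have hv : 1 < O.valuation (coeff m₀ h) := by
        rw [← not_le, O.valuation_le_one_iff]
        exact hn
      have hv' : O.valuation (coeff m₀ h)⁻¹ < 1 := by
        rw [map_inv₀]
        exact inv_lt_one_of_one_lt₀ hv
      have hcO : (coeff m₀ h)⁻¹ ∈ O := (O.valuation_le_one_iff _).1 hv'.le
      have e : A * q = C ⟨_, hcO⟩ * B := by
        apply map_sub_inj O
        rw [map_mul, map_mul, hq, hh, map_C]
        change _ = C ((coeff m₀ h)⁻¹) * _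
        ring
      have e2 := congrArg (map (IsLocalRing.residue O)) e
      rw [map_mul, map_mul, map_C, residue_zero O ⟨_, hcO⟩ hv', map_zero, zero_mul] at e2
      exact mul_ne_zero hA hqr e2
    have e : A * (C ⟨_, hO⟩ * q) = B := by
      apply map_sub_inj O
      rw [map_mul, map_mul, hq, hh, map_C]
      change _ * (C (coeff m₀ h) * _) = _
      rw [← mul_assoc (C (coeff m₀ h)), ← C_mul, mul_inv_cancel₀ hm0, C_1, one_mul]
    exact ⟨_, by rw [← e, map_mul]⟩

end val

end Pool.Agent.H9.PCF
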