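import Pool.Agent.H9.PCF.Val

/-!
# Rescaling a polynomial map over a valued field
-/

namespace Pool.Agent.H9.PCF

open MvPolynomial

section

variable {K : Type*} [Field K] {N : ℕ} (O : ValuationSubring K)

theorem coeff_high {κ : Type*} [Field κ] {d : ℕ} (p : MvPolynomial (Fin N) κ)
    (hp : p.totalDegree < d)
    (m : Fin N →₀ ℕ) (hm : d ≤ m.degree) : coeff m p = 0 := by
  apply coeff_eq_zero_of_totalDegree_lt
  rw [← Finsupp.degree_apply]
  omega

theorem totalDegree_lt_of_coeff {κ : Type*} [Field κ] {d : ℕ} (hd : 0 < d)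
    (p : MvPolynomial (Fin N) κ)
    (hp : ∀ m : Fin N →₀ ℕ, d ≤ m.degree → coeff m p = 0) : p.totalDegree < d := by
  refine (Finset.sup_lt_iff hd).2 fun m hm => ?_
  rw [mem_support_iff] at hm
  rw [deg_eq]
  by_contra h
  exact hm (hp m (by omega))

theorem at_scale {d : ℕ} (hd : 0 < d) (F0 : Fin N → MvPolynomial (Fin N) O)
    (hF0 : ∀ i, (F0 i).IsHomogeneous d)
    (f : Fin N → MvPolynomial (Fin N) K) (hf : ∀ j, (f j - map O.subtype (F0 j)).totalDegree < d)
    (s : K) (hs0 : s ≠ 0)
    (hs : ∀ j (m : Fin N →₀ ℕ), m.degree < d →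
      O.valuation (coeff m (f j)) ≤ O.valuation s ^ (d - m.degree)) :
    ∃ g : Fin N → MvPolynomial (Fin N) O,
      (∀ j, map O.subtype (g j) = C (s⁻¹ ^ d) * scale s (f j)) ∧
      IsTop d (fun j => map (IsLocalRing.residue O) (F0 j))
        (fun j => map (IsLocalRing.residue O) (g j)) ∧
      (∀ j (m : Fin N →₀ ℕ), m.degree < d →
        O.valuation (coeff m (f j)) = O.valuation s ^ (d - m.degree) →
        coeff m (map (IsLocalRing.residue O) (g j)) ≠ 0) ∧
      ((∀ j (m : Fin N →₀ ℕ), m.degree < d →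
          O.valuation (coeff m (f j)) < O.valuation s ^ (d - m.degree)) →
        ∀ j, map (IsLocalRing.residue O) (g j) = map (IsLocalRing.residue O) (F0 j)) := by
  have hvs : O.valuation s ≠ 0 := (Valuation.ne_zero_iff _).2 hs0
  -- coefficients in high degree
  have hhigh : ∀ j (m : Fin N →₀ ℕ), d ≤ m.degree →
      coeff m (C (s⁻¹ ^ d) * scale s (f j)) = ((coeff m (F0 j) : O) : K) := by
    intro j m hm
    have e1 := coeff_high (f j - map O.subtype (F0 j)) (hf j) m hm
    rw [coeff_sub, coeff_map, sub_eq_zero] at e1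
    rw [coeff_C_mul, coeff_scale, e1]
    change s⁻¹ ^ d * (s ^ m.degree * ((coeff m (F0 j) : O) : K)) = _
    rcases hm.eq_or_lt with h | h
    · rw [← h, ← mul_assoc, ← mul_pow, inv_mul_cancel₀ hs0, one_pow, one_mul]
    · have : coeff m (F0 j) = 0 := (hF0 j).coeff_eq_zero (by omega)
      rw [this]
      simp
  have hlow : ∀ j (m : Fin N →₀ ℕ), m.degree < d →
      coeff m (C (s⁻¹ ^ d) * scale s (f j)) = (s ^ (d - m.degree))⁻¹ * coeff m (f j) := by
    intro j m hm
    rw [coeff_C_mul, coeff_scale]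
    have e : s⁻¹ ^ d = (s ^ (d - m.degree))⁻¹ * (s ^ m.degree)⁻¹ := by
      rw [← mul_inv, ← pow_add, inv_pow]
      congr 2
      omega
    rw [e, ← mul_assoc, mul_assoc _ _ (s ^ m.degree), inv_mul_cancel₀ (pow_ne_zero _ hs0), mul_one]
  have hlowv : ∀ j (m : Fin N →₀ ℕ), m.degree < d →
      O.valuation (coeff m (C (s⁻¹ ^ d) * scale s (f j)))
        = (O.valuation s ^ (d - m.degree))⁻¹ * O.valuation (coeff m (f j)) := by
    intro j m hm
    rw [hlow j m hm, map_mul, map_inv₀, map_pow]
  have hpos : ∀ m : Fin N →₀ ℕ, 0 < O.valuation s ^ (d - m.degree) := fun m =>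
    zero_lt_iff.2 (pow_ne_zero _ hvs)
  have hint : ∀ j (m : Fin N →₀ ℕ), coeff m (C (s⁻¹ ^ d) * scale s (f j)) ∈ O := by
    intro j m
    by_cases hm : m.degree < d
    · rw [← O.valuation_le_one_iff, hlowv j m hm, inv_mul_le_iff₀ (hpos m), mul_one]
      exact hs j m hm
    · rw [hhigh j m (by omega)]
      exact (coeff m (F0 j)).2
  choose g hg using fun j => exists_lift O (C (s⁻¹ ^ d) * scale s (f j)) (hint j)
  have hcg : ∀ j (m : Fin N →₀ ℕ), ((coeff m (g j) : O) : K)
      = coeff m (C (s⁻¹ ^ d) * scale s (f j)) := by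
    intro j m
    have := congrArg (coeff m) (hg j)
    rw [coeff_map] at this
    exact this
  have hghigh : ∀ j (m : Fin N →₀ ℕ), d ≤ m.degree → coeff m (g j) = coeff m (F0 j) := by
    intro j m hm
    apply O.subtype_injective
    change ((coeff m (g j) : O) : K) = ((coeff m (F0 j) : O) : K)
    rw [hcg, hhigh j m hm]
  refine ⟨g, hg, ⟨fun i => (hF0 i).map _, fun j => ?_⟩, ?_, ?_⟩
  · apply totalDegree_lt_of_coeff hd
    intro m hm
    rw [coeff_sub, coeff_map, coeff_map, hghigh j m hm, sub_self]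
  · intro j m hm he
    rw [coeff_map]
    apply residue_ne_zero
    rw [hcg, hlowv j m hm, he, inv_mul_cancel₀ (hpos m).ne']
  · intro hlt j
    ext m
    rw [coeff_map, coeff_map]
    by_cases hm : m.degree < d
    · have e1 : coeff m (F0 j) = 0 := (hF0 j).coeff_eq_zero (by omega)
      rw [e1, map_zero]
      apply residue_zero
      rw [hcg, hlowv j m hm, inv_mul_lt_iff₀ (hpos m), mul_one]
      exact hlt j m hm
    · rw [hghigh j m (by omega)]

/-- The rescaled iterates. -/
theorem iter_scale {d : ℕ} (hd : 2 ≤ d) (F0 : Fin N → MvPolynomial (Fin N) O)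
    (hF0 : ∀ i, (F0 i).IsHomogeneous d)
    (f : Fin N → MvPolynomial (Fin N) K) (hf : ∀ j, (f j - map O.subtype (F0 j)).totalDegree < d)
    (R : K) (hR : 1 < O.valuation R)
    (hs : ∀ j (m : Fin N →₀ ℕ), m.degree < d →
      O.valuation (coeff m (f j)) ≤ O.valuation R ^ (d - m.degree))
    (g : Fin N → MvPolynomial (Fin N) O)
    (hg : ∀ j, map O.subtype (g j) = C (R⁻¹ ^ d) * scale R (f j)) (n : ℕ) :
    ∃ G : Fin N → MvPolynomial (Fin N) O,
      (∀ j, map O.subtype (G j) = C (R⁻¹ ^ d ^ (n + 1)) * scale R (iter f (n + 1) j)) ∧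
      ∀ j, map (IsLocalRing.residue O) (G j)
        = aeval (fun i => map (IsLocalRing.residue O) (g i))
          (iter (fun i => map (IsLocalRing.residue O) (F0 i)) n j) := by
  have hR0 : R ≠ 0 := by
    rintro rfl
    rw [map_zero] at hR
    exact absurd hR (by simp)
  induction n with
  | zero =>
    refine ⟨g, fun j => ?_, fun j => ?_⟩
    · rw [hg, zero_add, pow_one]
      have : iter f 1 j = f j := aeval_X_left_apply _
      rw [this]
    · simp [iter]
  | succ n ih =>
    obtain ⟨G, hG1, hG2⟩ := ih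
    set D := d ^ (n + 1) with hD
    have hD1 : 1 < D := Nat.one_lt_pow (by omega) (by omega)
    have hvD : O.valuation R < O.valuation (R ^ D) := by
      rw [map_pow]
      calc O.valuation R = O.valuation R ^ 1 := (pow_one _).symm
        _ < O.valuation R ^ D := pow_lt_pow_right₀ hR hD1
    have hlt : ∀ j (m : Fin N →₀ ℕ), m.degree < d →
        O.valuation (coeff m (f j)) < O.valuation (R ^ D) ^ (d - m.degree) := by
      intro j m hm
      refine (hs j m hm).trans_lt ?_
      exact pow_lt_pow_left₀ hvD zero_le (by omega)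
    obtain ⟨g', hg', -, -, hg4⟩ := at_scale O (by omega) F0 hF0 f hf (R ^ D) (pow_ne_zero _ hR0)
      (fun j m hm => (hlt j m hm).le)
    have hg5 := hg4 hlt
    refine ⟨fun j => aeval G (g' j), fun j => ?_, fun j => ?_⟩
    · rw [map_aeval', hg', map_mul, aeval_C, aeval_scale]
      have e1 : (fun i => C (R ^ D) * map O.subtype (G i))
          = fun i => scale R (iter f (n + 1) i) := by
        funext i
        rw [hG1, ← mul_assoc, ← C_mul, ← mul_pow, mul_inv_cancel₀ hR0, one_pow, C_1, one_mul]
      rw [e1, ← scale_aeval]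
      have e2 : (R ^ D)⁻¹ ^ d = R⁻¹ ^ d ^ (n + 1 + 1) := by
        rw [← inv_pow, ← pow_mul, hD, ← pow_succ]
      rw [e2]
      rfl
    · rw [map_aeval', hg5]
      simp only [hG2]
      rw [← aeval_aeval']
      rfl

/-- A polynomial becomes homogeneous after a large rescaling and reduction. -/
theorem scale_hom {d : ℕ} (hd : 2 ≤ d) (R : K) (hR : 1 < O.valuation R)
    (P : MvPolynomial (Fin N) K) (hP : P ≠ 0) :
    ∃ (n : ℕ) (Q : MvPolynomial (Fin N) O) (c : K) (h : ℕ),
      map O.subtype Q = C c * scale (R ^ d ^ (n + 1)) P ∧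
      (map (IsLocalRing.residue O) Q).IsHomogeneous h ∧ map (IsLocalRing.residue O) Q ≠ 0 := by
  classical
  have hR0 : R ≠ 0 := by
    rintro rfl
    rw [map_zero] at hR
    exact absurd hR (by simp)
  have hv0 : O.valuation R ≠ 0 := (Valuation.ne_zero_iff _).2 hR0
  -- a scale at which different degrees have different sizes
  obtain ⟨n, hn⟩ : ∃ n : ℕ, ∀ m ∈ P.support, ∀ m' ∈ P.support, m.degree < m'.degree →
      O.valuation (coeff m P) * O.valuation R ^ (d ^ (n + 1) * m.degree)
        ≠ O.valuation (coeff m' P) * O.valuation R ^ (d ^ (n + 1) * m'.degree) := by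
    by_contra hcon
    push Not at hcon
    choose m hm m' hm' hlt heq using hcon
    obtain ⟨n, n', hne, he⟩ := Finite.exists_ne_map_eq_of_infinite
      (fun n : ℕ => ((⟨m n, hm n⟩, ⟨m' n, hm' n⟩) : P.support × P.support))
    simp only [Prod.mk.injEq, Subtype.mk.injEq] at he
    wlog hnn : n < n' generalizing n n'
    · exact this n' n hne.symm ⟨he.1.symm, he.2.symm⟩ (by omega)
    have h1 := heq n
    have h2 := heq n'
    rw [← he.1, ← he.2] at h2
    have ha : O.valuation (coeff (m n) P) ≠ 0 :=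
      (Valuation.ne_zero_iff _).2 (mem_support_iff.1 (hm n))
    have hb : O.valuation (coeff (m' n) P) ≠ 0 :=
      (Valuation.ne_zero_iff _).2 (mem_support_iff.1 (hm' n))
    generalize O.valuation (coeff (m n) P) = a at *
    generalize O.valuation (coeff (m' n) P) = b at *
    have h3 : a * b * O.valuation R ^ (d ^ (n + 1) * (m n).degree + d ^ (n' + 1) * (m' n).degree)
        = a * b * O.valuation R ^ (d ^ (n + 1) * (m' n).degree + d ^ (n' + 1) * (m n).degree) := by
      rw [pow_add (O.valuation R), pow_add (O.valuation R)]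
      calc a * b * (O.valuation R ^ (d ^ (n + 1) * (m n).degree)
            * O.valuation R ^ (d ^ (n' + 1) * (m' n).degree))
          = (a * O.valuation R ^ (d ^ (n + 1) * (m n).degree))
            * (b * O.valuation R ^ (d ^ (n' + 1) * (m' n).degree)) := by
              rw [mul_mul_mul_comm]
        _ = (b * O.valuation R ^ (d ^ (n + 1) * (m' n).degree))
            * (a * O.valuation R ^ (d ^ (n' + 1) * (m n).degree)) := by rw [h1, ← h2]
        _ = _ := by rw [mul_mul_mul_comm, mul_comm b a]
    have h4 := mul_left_cancel₀ (mul_ne_zero ha hb) h3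
    have hdd : d ^ (n + 1) < d ^ (n' + 1) := Nat.pow_lt_pow_right (by omega) (by omega)
    have h5 : d ^ (n + 1) * (m' n).degree + d ^ (n' + 1) * (m n).degree
        < d ^ (n + 1) * (m n).degree + d ^ (n' + 1) * (m' n).degree := by
      have := hlt n
      nlinarith
    exact absurd h4 (ne_of_gt (pow_lt_pow_right₀ hR h5))
  set D := d ^ (n + 1) with hD
  have hS : scale (R ^ D) P ≠ 0 := by
    intro h0
    apply hP
    ext m
    have := congrArg (coeff m) h0
    rw [coeff_scale, coeff_zero] at this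
    rw [coeff_zero]
    exact (mul_eq_zero.1 this).resolve_left (pow_ne_zero _ (pow_ne_zero _ hR0))
  obtain ⟨m₀, hm0, hmax, Q, hQ, hQ1, hQ2⟩ := exists_normal O _ hS
  refine ⟨n, Q, _, m₀.degree, hQ, ?_, ?_⟩
  · intro m hm
    have hw : m.degree = m₀.degree → Finsupp.weight (1 : Fin N → ℕ) m = m₀.degree := fun h => by
      rw [← h, Finsupp.degree_eq_weight_one]
      rfl
    apply hw
    by_contra hne
    apply hm
    apply hQ2
    refine lt_of_le_of_ne (hmax m) ?_
    by_cases hmP : m ∈ P.support
    · have hm0P : m₀ ∈ P.support := by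
        rw [mem_support_iff]
        rw [coeff_scale] at hm0
        exact right_ne_zero_of_mul hm0
      have e : ∀ m : Fin N →₀ ℕ, O.valuation (coeff m (scale (R ^ D) P))
          = O.valuation (coeff m P) * O.valuation R ^ (D * m.degree) := by
        intro m
        rw [coeff_scale, map_mul, map_pow, map_pow, ← pow_mul, mul_comm]
      rw [e, e]
      rcases lt_or_gt_of_ne hne with h | h
      · exact hn m hmP m₀ hm0P h
      · exact (hn m₀ hm0P m hmP h).symm
    · rw [coeff_scale, notMem_support_iff.1 hmP, mul_zero, map_zero]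
      exact ((Valuation.ne_zero_iff _).2 hm0).symm
  · intro h0
    rw [h0, coeff_zero] at hQ1
    exact zero_ne_one hQ1

end

end Pool.Agent.H9.PCF
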