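import Pool.Agent.H9.PCF.Val2

/-!
# Coefficients of maps with a small postcritical set are integral at every place
-/

namespace Pool.Agent.H9.PCF

open MvPolynomial

variable {K : Type*} [Field K] {N : ℕ}

/-- A nonzero polynomial vanishes on the postcritical set. -/
def SmallPC (f : Fin N → MvPolynomial (Fin N) K) : Prop :=
  ∃ P : MvPolynomial (Fin N) K, P ≠ 0 ∧ ∀ n : ℕ, 1 ≤ n → ∀ x : Fin N → K,
    eval x (jac f) = 0 → eval ((fun (y : Fin N → K) i => eval y (f i))^[n] x) P = 0

theorem HasM.map' {R κ : Type*} [CommRing R] [Field κ] (φ : R →+* κ)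
    (F0 : Fin N → MvPolynomial (Fin N) R) {M : ℕ}
    (hM : ∀ i, (X i : MvPolynomial (Fin N) R) ^ M ∈ Ideal.span (Set.range F0)) :
    HasM (fun i => map φ (F0 i)) M := by
  intro i
  have h := hM i
  rw [Ideal.mem_span_range_iff_exists_fun] at h
  obtain ⟨c, hc⟩ := h
  rw [Ideal.mem_span_range_iff_exists_fun]
  refine ⟨fun j => map φ (c j), ?_⟩
  have := congrArg (map φ) hc
  simp only [map_sum, map_mul, map_pow, map_X] at this
  exact this

theorem eval_comp {R : Type*} [CommRing R] (W : Fin N → MvPolynomial (Fin N) R) (x : Fin N → R)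
    (p : MvPolynomial (Fin N) R) : eval x (aeval W p) = eval (fun i => eval x (W i)) p := by
  rw [aeval_eq_bind₁]
  induction p using MvPolynomial.induction_on with
  | C a => simp
  | add p q hp hq => simp only [map_add, hp, hq]
  | mul_X p i hp => simp only [map_mul, hp, bind₁_X_right, eval_X]

theorem val_main [IsAlgClosed K] (O : ValuationSubring K)
    [CharZero (IsLocalRing.ResidueField O)] {d M : ℕ} (hd : 2 ≤ d)
    (F0 : Fin N → MvPolynomial (Fin N) O) (hF0 : ∀ i, (F0 i).IsHomogeneous d)
    (hM : ∀ i, (X i : MvPolynomial (Fin N) O) ^ M ∈ Ideal.span (Set.range F0))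
    (f : Fin N → MvPolynomial (Fin N) K) (hf : ∀ j, (f j - map O.subtype (F0 j)).totalDegree < d)
    (h0 : ∀ j, eval 0 (f j) = 0) (hP : SmallPC f) (j₁ : Fin N) (m₁ : Fin N →₀ ℕ) :
    coeff m₁ (f j₁) ∈ O := by
  classical
  by_contra hbad
  have hm1 : m₁.degree < d := by
    by_contra hge
    have e1 := coeff_high (f j₁ - map O.subtype (F0 j₁)) (hf j₁) m₁ (by omega)
    rw [coeff_sub, coeff_map, sub_eq_zero] at e1
    apply hbad
    rw [e1]
    exact (coeff m₁ (F0 j₁)).2
  have hc1 : coeff m₁ (f j₁) ≠ 0 := by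
    intro h
    rw [h] at hbad
    exact hbad (O.zero_mem)
  -- the radius
  have hroot : ∀ p : Fin N × (Fin N →₀ ℕ), ∃ r : K, p.2.degree < d →
      r ^ (d - p.2.degree) = coeff p.2 (f p.1) := by
    intro p
    by_cases h : p.2.degree < d
    · obtain ⟨z, hz⟩ := IsAlgClosed.exists_pow_nat_eq (coeff p.2 (f p.1))
        (n := d - p.2.degree) (by omega)
      exact ⟨z, fun _ => hz⟩
    · exact ⟨0, fun h' => absurd h' h⟩
  choose r hr using hroot
  set T : Finset (Fin N × (Fin N →₀ ℕ)) := Finset.univ.biUnion fun j =>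
    ((f j).support.filter (fun m => m.degree < d)).image (fun m => (j, m)) with hT
  have hTmem : ∀ j m, coeff m (f j) ≠ 0 → m.degree < d → (j, m) ∈ T := by
    intro j m h1 h2
    rw [hT, Finset.mem_biUnion]
    refine ⟨j, Finset.mem_univ _, Finset.mem_image.2 ⟨m, ?_, rfl⟩⟩
    rw [Finset.mem_filter, mem_support_iff]
    exact ⟨h1, h2⟩
  have hTdeg : ∀ p ∈ T, p.2.degree < d := by
    intro p hp
    rw [hT, Finset.mem_biUnion] at hp
    obtain ⟨j, -, hp⟩ := hp
    rw [Finset.mem_image] at hp
    obtain ⟨m, hm, rfl⟩ := hp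
    rw [Finset.mem_filter] at hm
    exact hm.2
  obtain ⟨p₀, hp₀, hmax⟩ := Finset.exists_max_image T (fun p => O.valuation (r p))
    ⟨_, hTmem j₁ m₁ hc1 hm1⟩
  set R := r p₀ with hRdef
  have hs : ∀ j (m : Fin N →₀ ℕ), m.degree < d →
      O.valuation (coeff m (f j)) ≤ O.valuation R ^ (d - m.degree) := by
    intro j m hm
    by_cases hc : coeff m (f j) = 0
    · rw [hc, map_zero]
      exact zero_le
    · rw [← hr (j, m) hm, map_pow]
      exact pow_le_pow_left₀ zero_le (hmax _ (hTmem j m hc hm)) _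
  have hRv : 1 < O.valuation R := by
    have h1 : 1 < O.valuation (coeff m₁ (f j₁)) := by
      rw [← not_le, O.valuation_le_one_iff]
      exact hbad
    by_contra hle
    push Not at hle
    have h2 := hs j₁ m₁ hm1
    have h3 : O.valuation R ^ (d - m₁.degree) ≤ 1 := pow_le_one₀ zero_le hle
    exact absurd (h1.trans_le (h2.trans h3)) (lt_irrefl _)
  have hR0 : R ≠ 0 := by
    intro h
    rw [h, map_zero] at hRv
    exact absurd hRv (by simp)
  obtain ⟨g, hg, htop, hne, -⟩ := at_scale O (by omega) F0 hF0 f hf R hR0 hs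
  -- the polynomial vanishing on the postcritical set
  obtain ⟨P, hP0, hPv⟩ := hP
  obtain ⟨n, Q, c, h, hQ, hQh, hQ0⟩ := scale_hom O hd R hRv P hP0
  obtain ⟨G, hG1, hG2⟩ := iter_scale O hd F0 hF0 f hf R hRv hs g hg n
  have hMκ : HasM (fun j => map (IsLocalRing.residue O) (F0 j)) M := HasM.map' _ F0 hM
  have hint := isIntegral (by omega) htop hMκ
  have hjac := jac_ne_zero _ hint
  have hinj0 : ∀ p, aeval (fun j => map (IsLocalRing.residue O) (F0 j)) p = 0 → p = 0 :=
    aeval_injective _ (jac_ne_zero _ (isIntegral (by omega) (IsTop.refl (by omega) htop.1) hMκ))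
  -- divisibility over the algebraically closed field
  have hdvd : ∃ k : ℕ, map O.subtype (jac g) ∣ map O.subtype ((aeval G Q) ^ k) := by
    have hmem : map O.subtype (aeval G Q)
        ∈ vanishingIdeal K (zeroLocus K (Ideal.span {map O.subtype (jac g)})) := by
      rw [mem_vanishingIdeal_iff]
      intro x hx
      rw [mem_zeroLocus_iff] at hx
      have hx1 := hx _ (Ideal.subset_span rfl)
      change eval x (map O.subtype (jac g)) = 0 at hx1
      change eval x (map O.subtype (aeval G Q)) = 0
      rw [map_jac] at hx1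
      simp only [hg] at hx1
      rw [jac_scale, map_mul, eval_C, eval_scale] at hx1
      have hx2 : eval (fun i => R * x i) (jac f) = 0 := by
        refine (mul_eq_zero.1 hx1).resolve_left (pow_ne_zero _ (mul_ne_zero ?_ hR0))
        exact pow_ne_zero _ (inv_ne_zero hR0)
      have hx3 := hPv (n + 1) (by omega) _ hx2
      rw [map_aeval', hQ, map_mul, aeval_C, aeval_scale, map_mul]
      have e1 : (fun i => C (R ^ d ^ (n + 1)) * map O.subtype (G i))
          = fun i => scale R (iter f (n + 1) i) := by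
        funext i
        rw [hG1, ← mul_assoc, ← C_mul, ← mul_pow, mul_inv_cancel₀ hR0, one_pow, C_1, one_mul]
      rw [e1, eval_comp]
      have e2 : (fun i => eval x (scale R (iter f (n + 1) i)))
          = (fun (y : Fin N → K) i => eval y (f i))^[n + 1] (fun i => R * x i) := by
        rw [← eval_iter]
        funext i
        rw [eval_scale]
      rw [e2, hx3, mul_zero]
    rw [vanishingIdeal_zeroLocus_eq_radical, Ideal.mem_radical_iff] at hmem
    obtain ⟨k, hk⟩ := hmem
    refine ⟨k, ?_⟩
    rw [map_pow]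
    exact Ideal.mem_span_singleton.1 hk
  obtain ⟨k, hk⟩ := hdvd
  have hk2 := gauss O _ _ (by rw [map_jac]; exact hjac) hk
  rw [map_jac, map_pow, map_aeval'] at hk2
  simp only [hG2] at hk2
  rw [← aeval_aeval'] at hk2
  have hfin := rigid (by omega) htop hMκ _ (hQh.aeval _ (iter_hom _ htop.1 n))
    (fun h => hQ0 (iter_inj _ hinj0 n _ h)) k hk2 (by
      intro j
      have e0 : coeff 0 (f j) = 0 := by
        have := h0 j
        rw [MvPolynomial.eval_zero, constantCoeff_eq] at this
        exact this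
      rw [MvPolynomial.eval_zero, constantCoeff_eq, coeff_map]
      have e1 : coeff 0 (g j) = 0 := by
        apply O.subtype_injective
        have := congrArg (coeff 0) (hg j)
        rw [coeff_map, coeff_C_mul, coeff_scale, e0, mul_zero, mul_zero] at this
        rw [this, map_zero]
      rw [e1, map_zero])
  have hbad2 := hne p₀.1 p₀.2 (hTdeg p₀ hp₀) (by
    rw [← hr p₀ (hTdeg p₀ hp₀), map_pow])
  apply hbad2
  rw [hfin p₀.1]
  exact (htop.1 p₀.1).coeff_eq_zero (by have := hTdeg p₀ hp₀; omega)

end Pool.Agent.H9.PCF
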